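import Pool.Agent.Y709.Lay.SpecC
import Pool.Agent.Y709.Lay.Root
import Pool.Agent.Y709.Kum.CountF
import Pool.Agent.Y709.Kum.CountH
import Pool.Agent.Y709.Irr.Sq

/-!
The curves `y ^ (q - 1) = D B ∏ (x - β_i) ^ (m_i)` over the function field of `Y × 𝔸¹`, for a variety `Y` of
positive dimension over a finite field `k ⊇ 𝔽_q`, where the sections `β_i` have simple collisions and the
polynomial `B` is arbitrary: for `D` outside of a set of density zero there is a closed point `c` of `Y`, at
which a given polynomial `g` has a root, such that the L-functions of the specialisation at `c` do not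
vanish over all Galois coverings whose group is an extension of an abelian group of exponent dividing `μ`
by a `p`-group, tamely ramified over zeros of `B`.
-/

set_option autoImplicit false

open Polynomial

namespace Pool.Agent.Results.MP_9faec4_nt.KummerCoveringsOfVarieties

section generic

/-- The closed points of the affine line over the field `F`: monic irreducible polynomials. -/
abbrev ClosedPt (F : Type) [Field F] : Type := {P : F[X] // P.Monic ∧ Irreducible P}

variable {F : Type} [Field F]

/-- The degree of a closed point of the affine line over `F`. -/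
noncomputable def ptDegree (P : ClosedPt F) : ℕ := P.1.natDegree

/-- The polynomial `c ∏ (x - b_i) ^ (m_i)` over `F`. -/
noncomputable def fibre {n : ℕ} (c : F) (b : Fin n → F) (m : Fin n → ℕ) : F[X] :=
  C c * ∏ i, (X - C (b i)) ^ m i

/-- The norm to `κ` of the value of the polynomial `g` over `F` at the closed point `Q` of the affine
line over the extension `F` of `κ`. -/
noncomputable def normValue {κ : Type} [Field κ] [Algebra κ F] (g : F[X]) (Q : ClosedPt F) : κ :=
  Algebra.norm κ (AdjoinRoot.mk Q.1 g)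

/-- The Euler product: its coefficient of index `n` is that of the product of the factors of degree
at most `n`. -/
noncomputable def eulerProduct {ι : Type} (d : ι → ℕ) (f : ι → PowerSeries ℂ) : PowerSeries ℂ :=
  PowerSeries.mk fun n => PowerSeries.coeff n (∏ᶠ (i : ι) (_ : d i ≤ n), f i)

end generic

section points

variable {κ : Type} [Field κ] {O : Type} [CommRing O] [Algebra κ[X] O]

/-- The residue field of a closed point of `Spec O`, for an algebra `O` over `κ[t]`. -/
def Res (𝔪 : MaximalSpectrum O) : Type := O ⧸ 𝔪.asIdeal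

attribute [local instance] MaximalSpectrum.isMaximal in
noncomputable instance resField (𝔪 : MaximalSpectrum O) : Field (Res 𝔪) :=
  Ideal.Quotient.field 𝔪.asIdeal

/-- The value at `𝔪` of a polynomial in `t`. -/
noncomputable def value (𝔪 : MaximalSpectrum O) : κ[X] →+* Res 𝔪 :=
  (Ideal.Quotient.mk 𝔪.asIdeal).comp (algebraMap κ[X] O)

noncomputable instance resAlgebra (𝔪 : MaximalSpectrum O) : Algebra κ (Res 𝔪) :=
  ((value 𝔪).comp C).toAlgebra

/-- The closed points of the product of `Spec O` and the `x`-line: a closed point of `Spec O` and a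
closed point of the `x`-line over its residue field. -/
structure SurfacePt (O : Type) [CommRing O] : Type where
  place : MaximalSpectrum O
  point : ClosedPt (Res place)

variable (κ) in
/-- The degree of a closed point over `κ`. -/
noncomputable def SurfacePt.deg (z : SurfacePt O) : ℕ :=
  Module.finrank κ (Res z.place) * ptDegree z.point

/-- A finite group `G` acts on the ring `O ⊇ κ[t]` faithfully and with the ring of invariants `κ[t]`, so
that `Spec O` is a Galois covering of the line with the group `G`. There are elements `w_1, …, w_a` of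
`O` such that the powers `w_i ^ μ` are polynomials in `t` whose zeros are zeros of `B`, every element of the
group multiplies every `w_i` by a constant, and the elements which fix all `w_i` form a `p`-group: so the
group is an extension of an abelian group of exponent dividing `μ` by a `p`-group. The covering is
unramified at the points where `E(t)` is not zero: the inertia groups are trivial. -/
structure IsLayer (p μ : ℕ) (B E : κ[X]) (G O : Type) [Group G] [Finite G] [CommRing O]
    [Algebra κ[X] O] [MulSemiringAction G O] : Prop where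
  galois : IsGaloisGroup G κ[X] O
  injective : Function.Injective (algebraMap κ[X] O)
  kummer : ∃ (a : ℕ) (w : Fin a → O) (γ : Fin a → κ[X]), (∀ i, γ i ≠ 0) ∧
    (∀ i, ∀ P : κ[X], Irreducible P → P ∣ γ i → P ∣ B) ∧
    (∀ i, w i ^ μ = algebraMap κ[X] O (γ i)) ∧
    (∀ i, ∀ σ : G, ∃ c : κ, σ • w i = algebraMap κ[X] O (C c) * w i) ∧
    ∀ σ : G, (∀ i, σ • w i = w i) → ∃ n : ℕ, σ ^ p ^ n = 1
  unramified : ∀ 𝔪 : MaximalSpectrum O, algebraMap κ[X] O E ∉ 𝔪.asIdeal →
    𝔪.asIdeal.inertia G = ⊥

/-- As `IsLayer`, for the coverings of the fixed curve `w_i ^ μ = γ_i(t)`, `i = 1, …, c`: a finite group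
`G` acts on the ring `O ⊇ κ[t]` faithfully and with the ring of invariants `κ[t]`; `O` contains elements
`w_i` with `w_i ^ μ = γ_i`, every element of the group multiplies every `w_i` by a constant, and the
elements which fix all `w_i` form a `p`-group. The covering is unramified at the points where `E(t)` is
not zero. -/
structure IsLayerOver (p μ : ℕ) {c : ℕ} (γ : Fin c → κ[X]) (E : κ[X]) (G O : Type) [Group G]
    [Finite G] [CommRing O] [Algebra κ[X] O] [MulSemiringAction G O] : Prop where
  galois : IsGaloisGroup G κ[X] O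
  injective : Function.Injective (algebraMap κ[X] O)
  kummer : ∃ w : Fin c → O, (∀ i, w i ^ μ = algebraMap κ[X] O (γ i)) ∧
    (∀ i, ∀ σ : G, ∃ c : κ, σ • w i = algebraMap κ[X] O (C c) * w i) ∧
    ∀ σ : G, (∀ i, σ • w i = w i) → ∃ n : ℕ, σ ^ p ^ n = 1
  unramified : ∀ 𝔪 : MaximalSpectrum O, algebraMap κ[X] O E ∉ 𝔪.asIdeal →
    𝔪.asIdeal.inertia G = ⊥

end points

section base

variable {k : Type} [Field k] {A : Type} [CommRing A] [Algebra k A]

/-- The residue field of a closed point of `Y = Spec A`. -/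
def FieldAt (c : MaximalSpectrum A) : Type := A ⧸ c.asIdeal

attribute [local instance] MaximalSpectrum.isMaximal in
noncomputable instance fieldAtField (c : MaximalSpectrum A) : Field (FieldAt c) :=
  Ideal.Quotient.field c.asIdeal

instance fieldAtAlgebra (c : MaximalSpectrum A) : Algebra k (FieldAt c) :=
  inferInstanceAs (Algebra k (A ⧸ c.asIdeal))

/-- The value of a function on `Y` at the closed point `c`. -/
def evalAt (c : MaximalSpectrum A) : A →+* FieldAt c := Ideal.Quotient.mk c.asIdeal

end base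

/-- The data `B`, `β_i`, `m_i` of a pencil `y ^ (q - 1) = B ∏ (x - β_i) ^ (m_i)` with `r + 1` sections
`β_i`, where `B` and the `β_i` are polynomials in `t` over the ring `A`. -/
structure Pencil (A : Type) [CommRing A] (r : ℕ) : Type where
  coef : A[X]
  root : Fin (r + 1) → A[X]
  mult : Fin (r + 1) → ℕ

section pencil

/-- The specialisation of a pencil at a homomorphism `c`. -/
noncomputable def Pencil.at {A : Type} [CommRing A] {κ : Type} [Field κ] {r : ℕ} (S : Pencil A r)
    (c : A →+* κ) : Pencil κ r :=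
  ⟨S.coef.map c, fun i => (S.root i).map c, S.mult⟩

variable {A : Type} [CommRing A] {r : ℕ} (S : Pencil A r)

/-- The degree `n` of the pencil in `x`: the sum of the multiplicities. -/
def Pencil.degX : ℕ := ∑ i, S.mult i

/-- The product of the differences `β_j - β_i` over `i < j`; its zeros are the collisions. -/
noncomputable def Pencil.differences : A[X] :=
  ∏ i, ∏ j ∈ Finset.Ioi i, (S.root j - S.root i)

/-- The polynomial `F` in `t` has no multiple zero in an algebraic closure of the field of fractions of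
`A`. -/
def Separable [IsDomain A] (F : A[X]) : Prop :=
  (F.map (algebraMap A (FractionRing A))).Separable

/-- All zeros of `γ` in an algebraic closure of the field of fractions of `A` are zeros of `F`, and their
multiplicity in `γ` is at most `b` times the one in `F`: up to a constant `γ` divides `F ^ b`. -/
def Within (γ F : A[X]) (b : ℕ) : Prop := ∃ a : A, a ≠ 0 ∧ γ ∣ C a * F ^ b

/-- The pencil has simple collisions, and its sections have the degree `d` in `t`: the differences of the
sections `β_i` have exactly the degree `d ≥ 1`, and their product has no multiple zero in an algebraic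
closure of the field of fractions of `A`. The multiplicities `m_i` are positive, `B` is not zero, and in
the algebraic closure it has at most `ω` zeros, of multiplicity at most `b`. (`B` need not be prime to the
differences.) -/
structure Pencil.Simple [IsDomain A] (d b ω : ℕ) : Prop where
  deg_pos : 0 < d
  root_deg : ∀ i, (S.root i).natDegree ≤ d
  diff_deg : ∀ i j, i ≠ j → (S.root i - S.root j).natDegree = d
  diff_sep : Separable S.differences
  mult_pos : ∀ i, 0 < S.mult i
  coef_ne : S.coef ≠ 0
  coef_zeros : ∃ F : A[X], Separable F ∧ F.natDegree ≤ ω ∧ Within S.coef F b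

end pencil

section special

variable {κ : Type} [Field κ] {r : ℕ} (S : Pencil κ r)

/-- The norm to `κ` of the value of `D(t) B(t) ∏ (x - β_i(t)) ^ (m_i)` at a closed point. -/
noncomputable def Pencil.norm {O : Type} [CommRing O] [Algebra κ[X] O] (D : κ[X])
    (z : SurfacePt O) : κ :=
  normValue (fibre (value z.place (D * S.coef)) (fun i => value z.place (S.root i)) S.mult) z.point

/-- The `L`-function in the variable `T = (#κ) ^ (-s)` of the `χ`-part of the Jacobian of the curve
`y ^ (q - 1) = D(t) B(t) ∏ (x - β_i(t)) ^ (m_i)` over the covering `Spec O` of the `t`-line over `κ`: the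
product over the closed points `z` of `Spec O × 𝔸¹` of the factors `1 - χ(N z) T ^ (deg z)`, where `N z` is
the norm to `κ` of the value of `D(t) B(t) ∏ (x - β_i(t)) ^ (m_i)` at `z`, and `χ(0) = 0`. -/
noncomputable def Pencil.Lfun (O : Type) [CommRing O] [Algebra κ[X] O] (χ : MulChar κ ℂ)
    (D : κ[X]) : PowerSeries ℂ :=
  eulerProduct (fun z : SurfacePt O => z.deg κ)
    (fun z => 1 - PowerSeries.C (χ (S.norm D z)) * PowerSeries.X ^ z.deg κ)

/-- The power series `L` in `T` is the product of a polynomial and of `1 - Q ζ T` for a complex number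
`ζ` with `ζ ^ e = 1`: it vanishes at a point with `(Q T) ^ e = 1`. -/
def Vanishes (Q e : ℕ) (L : PowerSeries ℂ) : Prop :=
  ∃ ζ : ℂ, ζ ^ e = 1 ∧ ∃ G : ℂ[X], L = (((1 - C ((Q : ℂ) * ζ) * X) * G : ℂ[X]) : PowerSeries ℂ)

/-- The polynomial `D` has exact degree `N`, it is squarefree and prime to `B ∏ (β_j - β_i)`, and over all
Galois coverings whose group is an extension of an abelian group of exponent dividing `μ` by a `p`-group, as
in `IsLayer`, that are unramified outside of the zeros of `D B` (and `∞`), none of the `L`-functions of the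
characters `χ` of exact order `q - 1` vanishes at a point `T` with `(#κ T) ^ e = 1`. -/
structure Pencil.Settled (p q μ e N : ℕ) (D : κ[X]) : Prop where
  deg : D.natDegree = N
  squarefree : Squarefree D
  coprime : IsCoprime D (S.coef * S.differences)
  nonvanishing : ∀ (G O : Type) [Group G] [Finite G] [CommRing O] [Algebra κ[X] O]
    [MulSemiringAction G O], IsLayer p μ S.coef (D * S.coef) G O →
      ∀ χ : MulChar κ ℂ, orderOf χ = q - 1 → ¬ Vanishes (Nat.card κ) e (S.Lfun O χ D)

/-- As `Settled`, for the coverings `IsLayerOver` of the fixed curve `w_i ^ μ = γ_i(t)`: the polynomial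
`D` has exact degree `N`, it is squarefree and prime to `B ∏ (β_j - β_i)`, and over all the coverings of
this curve as in `IsLayerOver` that are unramified outside of the zeros of `D B` (and `∞`), none of the
`L`-functions of the characters `χ` of exact order `q - 1` vanishes at a point `T` with
`(#κ T) ^ e = 1`. -/
structure Pencil.SettledOver (p q μ e N : ℕ) {c : ℕ} (γ : Fin c → κ[X]) (D : κ[X]) : Prop where
  deg : D.natDegree = N
  squarefree : Squarefree D
  coprime : IsCoprime D (S.coef * S.differences)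
  nonvanishing : ∀ (G O : Type) [Group G] [Finite G] [CommRing O] [Algebra κ[X] O]
    [MulSemiringAction G O], IsLayerOver p μ γ (D * S.coef) G O →
      ∀ χ : MulChar κ ℂ, orderOf χ = q - 1 → ¬ Vanishes (Nat.card κ) e (S.Lfun O χ D)

theorem Lfun_eq (O : Type) [CommRing O] [Algebra κ[X] O] (χ : MulChar κ ℂ) (D : κ[X]) :
    S.Lfun O χ D = Pool.Agent.Y709.Lay.LO O χ (D * S.coef) S.root S.mult := by
  unfold Pencil.Lfun Pool.Agent.Y709.Lay.LO eulerProduct Pool.Agent.W343.BSD.eulerProd
  ext n
  rw [PowerSeries.coeff_mk, PowerSeries.coeff_mk]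
  congr 1
  let E : (Σ 𝔪 : MaximalSpectrum O, Pool.Agent.W313.Hyp.MI (Pool.Agent.Y709.Lay.RO κ 𝔪)) ≃
      SurfacePt O :=
    { toFun := fun z => ⟨z.1, z.2⟩
      invFun := fun z => ⟨z.place, z.point⟩
      left_inv := fun _ => rfl
      right_inv := fun _ => rfl }
  exact (finprod_comp_equiv E
    (f := fun z : SurfacePt O => ∏ᶠ (_ : z.deg κ ≤ n),
      (1 - PowerSeries.C (χ (S.norm D z)) * PowerSeries.X ^ z.deg κ : PowerSeries ℂ))).symm

/-- the number of the prime factors -/
theorem ncard_primes {κ : Type} [Field κ] {B F : κ[X]} (hF : F ≠ 0)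
    (h : ∀ P : κ[X], Irreducible P → P ∣ B → P ∣ F) :
    (Pool.Agent.Y709.Kum.primes B).ncard ≤ F.natDegree := by
  classical
  set T := (UniqueFactorizationMonoid.normalizedFactors F).toFinset with hT
  have hsub : Pool.Agent.Y709.Kum.primes B ⊆ (T : Set κ[X]) := by
    rintro P ⟨hPm, hP, hPB⟩
    obtain ⟨P', hP', hPP⟩ :=
      UniqueFactorizationMonoid.exists_mem_normalizedFactors_of_dvd hF hP (h P hP hPB)
    have h1 : P' = P := by
      have h2 := UniqueFactorizationMonoid.normalize_normalized_factor P' hP'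
      have h3 : normalize P = P := hPm.normalize_eq_self
      rw [← h2, ← h3]
      exact (normalize_eq_normalize_iff_associated.2 hPP).symm
    rw [← h1]
    exact Finset.mem_coe.2 (Multiset.mem_toFinset.2 hP')
  refine (Set.ncard_le_ncard hsub (Finset.finite_toSet T)).trans ?_
  rw [Set.ncard_coe_finset]
  refine (Multiset.toFinset_card_le _).trans ?_
  have h2 : ∀ s : Multiset κ[X], (∀ P ∈ s, 0 < P.natDegree) → s.card ≤ s.prod.natDegree := by
    intro s
    induction s using Multiset.induction_on with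
    | empty => intro _; exact Nat.zero_le _
    | cons a s ih =>
      intro h
      have ha := h a (Multiset.mem_cons_self a s)
      have hs := fun P hP => h P (Multiset.mem_cons_of_mem hP)
      have hne : s.prod ≠ 0 := by
        rw [Ne, Multiset.prod_eq_zero_iff]
        intro h0
        have := hs 0 h0
        rw [natDegree_zero] at this
        exact absurd this (lt_irrefl 0)
      have ha0 : a ≠ 0 := by
        rintro rfl
        rw [natDegree_zero] at ha
        exact absurd ha (lt_irrefl 0)
      rw [Multiset.card_cons, Multiset.prod_cons, natDegree_mul ha0 hne]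
      have := ih hs
      omega
  have h3 := h2 (UniqueFactorizationMonoid.normalizedFactors F) fun P hP =>
    (UniqueFactorizationMonoid.irreducible_of_normalized_factor P hP).natDegree_pos
  refine h3.trans (le_of_eq ?_)
  have h4 := UniqueFactorizationMonoid.prod_normalizedFactors hF
  exact natDegree_eq_of_degree_eq (degree_eq_degree_of_associated h4)

/-- the multiplicities -/
theorem mult_le {κ : Type} [Field κ] {B F : κ[X]} (hF : Squarefree F) {u : κ} (hu : u ≠ 0) {b : ℕ}
    (h : B ∣ C u * F ^ b) (P : κ[X]) (hP : Irreducible P) : ¬ P ^ (b + 1) ∣ B := by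
  intro h1
  have h2 : P ^ (b + 1) ∣ F ^ b := by
    have h3 := h1.trans h
    have h4 : IsUnit (C u : κ[X]) := isUnit_C.2 (isUnit_iff_ne_zero.2 hu)
    exact (h4.dvd_mul_left).1 h3
  rw [pow_dvd_iff_le_emultiplicity, emultiplicity_pow hP.prime] at h2
  have h5 : emultiplicity P F ≤ 1 := by
    rcases (squarefree_iff_emultiplicity_le_one F).1 hF P with h6 | h6
    · exact h6
    · exact absurd h6 hP.not_isUnit
  have h6 : ((b + 1 : ℕ) : ℕ∞) ≤ (b : ℕ∞) * 1 := h2.trans (mul_le_mul_right h5 _)
  rw [mul_one] at h6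
  have h7 := ENat.natCast_le_natCast.1 h6
  omega

theorem dvd_of_within {κ : Type} [Field κ] {B F : κ[X]} {u : κ} (hu : u ≠ 0) {b : ℕ}
    (h : B ∣ C u * F ^ b) (P : κ[X]) (hP : Irreducible P) (hPB : P ∣ B) : P ∣ F := by
  have h4 : IsUnit (C u : κ[X]) := isUnit_C.2 (isUnit_iff_ne_zero.2 hu)
  exact hP.prime.dvd_of_dvd_pow ((h4.dvd_mul_left).1 (hPB.trans h))

/-- the polynomials that are not of the right kind -/
theorem ncard_bad {κ : Type} [Field κ] [Finite κ] {Δ : κ[X]} (hΔ : Δ ≠ 0) {δ : ℕ}
    (hδ : Δ.natDegree ≤ δ) {q c₀ N : ℕ} (hbig : 2 * q * (δ + 3) ≤ Nat.card κ) (V : κ[X] → Prop)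
    (hV : q * {D : κ[X] | D.natDegree ≤ N ∧ V D}.ncard ≤ c₀ * Nat.card κ ^ (N + 1)) :
    2 * q * {D : κ[X] | D.natDegree ≤ N ∧ ¬ (D.natDegree = N ∧ Squarefree D ∧ IsCoprime D Δ ∧
      ¬ V D)}.ncard ≤ (2 * c₀ + 1) * Nat.card κ ^ (N + 1) := by
  have hsub : {D : κ[X] | D.natDegree ≤ N ∧ ¬ (D.natDegree = N ∧ Squarefree D ∧ IsCoprime D Δ ∧
      ¬ V D)} ⊆
      (({D : κ[X] | D.natDegree ≤ N ∧ D.natDegree ≠ N} ∪
        {D : κ[X] | D.natDegree ≤ N ∧ ¬ Squarefree D}) ∪
        {D : κ[X] | D.natDegree ≤ N ∧ ¬ IsCoprime D Δ}) ∪ {D : κ[X] | D.natDegree ≤ N ∧ V D} := by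
    rintro D ⟨hD, hns⟩
    by_cases h2 : D.natDegree = N
    · by_cases h3 : Squarefree D
      · by_cases h4 : IsCoprime D Δ
        · right
          refine ⟨hD, ?_⟩
          by_contra h5
          exact hns ⟨h2, h3, h4, h5⟩
        · exact Or.inl (Or.inr ⟨hD, h4⟩)
      · exact Or.inl (Or.inl (Or.inr ⟨hD, h3⟩))
    · exact Or.inl (Or.inl (Or.inl ⟨hD, h2⟩))
  have h2 := Pool.Agent.Y709.Sp.ncard_drop (k := κ) N
  have h3 := Pool.Agent.Y709.Sp.ncard_sq (k := κ) N
  have h4 := Pool.Agent.Y709.Sp.ncard_cop hΔ hδ N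
  have h5 : {D : κ[X] | D.natDegree ≤ N ∧ ¬ (D.natDegree = N ∧ Squarefree D ∧ IsCoprime D Δ ∧
      ¬ V D)}.ncard ≤
      (δ + 3) * Nat.card κ ^ N + {D : κ[X] | D.natDegree ≤ N ∧ V D}.ncard := by
    refine (Set.ncard_le_ncard hsub ((((Pool.Agent.Y709.Sp.finite_sub N).union
      (Pool.Agent.Y709.Sp.finite_sub N)).union (Pool.Agent.Y709.Sp.finite_sub N)).union
        (Pool.Agent.Y709.Sp.finite_sub N))).trans ?_
    refine (Set.ncard_union_le _ _).trans ?_
    refine (Nat.add_le_add_right ((Set.ncard_union_le _ _).trans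
      (Nat.add_le_add_right (Set.ncard_union_le _ _) _)) _).trans ?_
    have h6 : (δ + 3) * Nat.card κ ^ N = Nat.card κ ^ N + 2 * Nat.card κ ^ N +
      δ * Nat.card κ ^ N := by ring
    rw [h6]
    exact Nat.add_le_add_right (Nat.add_le_add (Nat.add_le_add h2 h3) h4) _
  calc 2 * q * _ ≤ 2 * q * ((δ + 3) * Nat.card κ ^ N +
        {D : κ[X] | D.natDegree ≤ N ∧ V D}.ncard) := Nat.mul_le_mul_left _ h5
    _ = (2 * q * (δ + 3)) * Nat.card κ ^ N +
        2 * (q * {D : κ[X] | D.natDegree ≤ N ∧ V D}.ncard) := by ring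
    _ ≤ Nat.card κ * Nat.card κ ^ N + 2 * (c₀ * Nat.card κ ^ (N + 1)) :=
        Nat.add_le_add (Nat.mul_le_mul_right _ hbig) (Nat.mul_le_mul_left _ hV)
    _ = _ := by ring

section counts

variable {κ : Type} [Field κ] [Finite κ] {p : ℕ} [Fact p.Prime] [CharP κ p]
  {a s q : ℕ} (ha : 0 < a) (hs : 0 < s) (hq : q = p ^ a) (hk : Nat.card κ = q ^ s) {r : ℕ}
  (S : Pencil κ r) {d : ℕ} (hd : 0 < d) (hrd : ∀ i, (S.root i).natDegree ≤ d)
  (hdd : ∀ i j, i ≠ j → (S.root i - S.root j).natDegree = d) (hsq : Squarefree S.differences)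
  (hm : ∀ i, 0 < S.mult i) (hB : S.coef ≠ 0) {μ ν b ω : ℕ} (hμ : 0 < μ) (hμν : μ * ν = q - 1)
  (hmult : ∀ P : κ[X], Irreducible P → ¬ P ^ (b + 1) ∣ S.coef)
  (hchar : S.degX < p)
  (hdeg : r * S.degX ≤ q - 1) (hr : 4 * (r + 1) ^ 2 ≤ q) (hb : S.degX + b + 3 * r + 3 ≤ ν)
  {e : ℕ} (he : e ∣ q - 1) {f : ℕ} (hf : f = S.coef.natDegree + d * S.degX) {δ : ℕ}
  (hδ : (S.coef * S.differences).natDegree ≤ δ) (hbig : 2 * q * (δ + 3) ≤ Nat.card κ) {M ρ N : ℕ}

include ha hs hq hk hd hrd hdd hsq hm hB hμ hμν hmult hchar hdeg hr hb he hf hδ hbig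

/-- the polynomials that are not settled -/
theorem ncard_not_settled (hω : (Pool.Agent.Y709.Kum.primes S.coef).ncard ≤ ω)
    (hM : 8 * μ * q * (r + 1) ^ 2 * (f + 1) ≤ M) (hρ : 2 * r < ρ) (hρν : ρ < ν)
    (hN : N + f = ν * M + ρ) :
    2 * q * {D : κ[X] | D.natDegree ≤ N ∧ ¬ S.Settled p q μ e N D}.ncard ≤
      (2 * (2 * e * μ ^ (ω + 1)) + 1) * Nat.card κ ^ (N + 1) := by
  have hFt : Fintype κ := Fintype.ofFinite κ
  have hsimple := Pool.Agent.Y709.Irr.simple_of hd hrd hdd hsq
  have h7 := Pool.Agent.Y709.Kum.countGX (k := κ) (p := p) Pool.Agent.Y363.Kum.kummerDegreeFam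
    Pool.Agent.Y468.Kum.kummerProd Pool.Agent.Y427.Kum.kummerOrder hq ha hs
    (by rw [← Nat.card_eq_fintype_card, hk]) S.coef hB b hmult hsimple
    hm hchar hdeg hμ hμν hb hr f ρ M N e hf he (by omega) (by omega) hM hN
  have hμ1 : μ ^ ((Pool.Agent.Y709.Kum.primes S.coef).ncard + 1) ≤ μ ^ (ω + 1) :=
    Nat.pow_le_pow_right hμ (Nat.succ_le_succ hω)
  have h8 := h7.trans (Nat.mul_le_mul_right _ (Nat.mul_le_mul_left _ hμ1))
  refine le_trans (Nat.mul_le_mul_left _ (Set.ncard_le_ncard ?_
    (Pool.Agent.Y709.Sp.finite_sub N))) (ncard_bad (mul_ne_zero hB hsq.ne_zero) hδ hbig _ h8)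
  rintro D ⟨hD, hns⟩
  refine ⟨hD, fun ⟨h2, h3, h4, h5⟩ => hns ⟨h2, h3, h4, ?_⟩⟩
  intro G O i1 i2 i3 i4 i5 hL χ hχ h6
  obtain ⟨ζ, hζ, H, hH⟩ := h6
  apply h5
  have i6 := hL.galois
  have i7 : FaithfulSMul κ[X] O := (faithfulSMul_iff_algebraMap_injective _ _).2 hL.injective
  obtain ⟨a', w, γ, hγ0, hγ, hw, hact, hst⟩ := hL.kummer
  refine ⟨G, O, i1, i2, i3, i4, i5, i6, i7, a', w, γ, hγ0, hγ, hw, hact, ?_, ?_, χ, hχ,
    ζ, hζ, H, ?_⟩
  · rintro ⟨σ, hσ⟩
    obtain ⟨n, h1⟩ := hst σ fun i => by
      have h2 := (Subgroup.mem_iInf.1 hσ) i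
      exact MulAction.mem_stabilizer_iff.1 h2
    exact ⟨n, Subtype.ext h1⟩
  · intro 𝔪 h𝔪
    apply hL.unramified
    intro h0
    exact h𝔪 ((Pool.Agent.Y709.Lay.vO_eq_zero κ).2 h0)
  · rw [← Lfun_eq, hH]

/-- the polynomials that are not settled over the coverings of a fixed curve -/
theorem ncard_not_settledOver {c g : ℕ} (γ : Fin c → κ[X]) (hγ0 : ∀ i, γ i ≠ 0)
    (hγ : ∀ i, ∀ P : κ[X], Irreducible P → P ∣ γ i → P ∣ S.coef)
    (hg : ∑ i, (γ i).natDegree ≤ g)
    (hM : 8 * μ * (r + 1) ^ 2 * (f + (q - 1) * g + 1) ≤ M) (hρ : 2 * r < ρ)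
    (hρν : ρ < ν) (hN : N + f = ν * M + ρ) :
    2 * q * {D : κ[X] | D.natDegree ≤ N ∧ ¬ S.SettledOver p q μ e N γ D}.ncard ≤
      (2 * (2 * e * μ ^ c) + 1) * Nat.card κ ^ (N + 1) := by
  have hFt : Fintype κ := Fintype.ofFinite κ
  have hsimple := Pool.Agent.Y709.Irr.simple_of hd hrd hdd hsq
  have hM' : μ * (8 * (r + 1) ^ 2 * (f + (q - 1) * (∑ i, (γ i).natDegree) + 1)) ≤ M := by
    refine le_trans ?_ hM
    calc μ * (8 * (r + 1) ^ 2 * (f + (q - 1) * (∑ i, (γ i).natDegree) + 1)) ≤
        μ * (8 * (r + 1) ^ 2 * (f + (q - 1) * g + 1)) := by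
          gcongr
      _ = _ := by ring
  have h7 := Pool.Agent.Y709.Kum.countFX (k := κ) (p := p) Pool.Agent.Y363.Kum.kummerDegreeFam
    Pool.Agent.Y468.Kum.kummerProd Pool.Agent.Y427.Kum.kummerOrder hq ha hs
    (by rw [← Nat.card_eq_fintype_card, hk]) S.coef hB b hmult hsimple
    hm hchar hdeg hμ hμν γ hγ0 hγ hb hr f ρ M N e hf he (by omega) (by omega) hM' hN
  refine le_trans (Nat.mul_le_mul_left _ (Set.ncard_le_ncard ?_
    (Pool.Agent.Y709.Sp.finite_sub N))) (ncard_bad (mul_ne_zero hB hsq.ne_zero) hδ hbig _ h7)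
  rintro D ⟨hD, hns⟩
  refine ⟨hD, fun ⟨h2, h3, h4, h5⟩ => hns ⟨h2, h3, h4, ?_⟩⟩
  intro G O i1 i2 i3 i4 i5 hL χ hχ h6
  obtain ⟨ζ, hζ, H, hH⟩ := h6
  apply h5
  have i6 := hL.galois
  have i7 : FaithfulSMul κ[X] O := (faithfulSMul_iff_algebraMap_injective _ _).2 hL.injective
  obtain ⟨w, hw, hact, hst⟩ := hL.kummer
  refine ⟨G, O, i1, i2, i3, i4, i5, i6, i7, w, hw, hact, ?_, ?_, χ, hχ, ζ, hζ, H, ?_⟩
  · rintro ⟨σ, hσ⟩
    obtain ⟨n, h1⟩ := hst σ fun i => by
      have h2 := (Subgroup.mem_iInf.1 hσ) i
      exact MulAction.mem_stabilizer_iff.1 h2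
    exact ⟨n, Subtype.ext h1⟩
  · intro 𝔪 h𝔪
    apply hL.unramified
    intro h0
    exact h𝔪 ((Pool.Agent.Y709.Lay.vO_eq_zero κ).2 h0)
  · rw [← Lfun_eq, hH]

end counts

end special

section twists

variable {k : Type} [Field k] {A : Type} [CommRing A] [Algebra k A]

/-- The polynomials `D` in `t` over `A` of degree at most `N` with coefficients in `H`. -/
def twists (H : Submodule k A) (N : ℕ) : Set A[X] :=
  {D | D.natDegree ≤ N ∧ ∀ j, D.coeff j ∈ H}

/-- The polynomials `D` which are settled at none of the closed points `c` of `Y = Spec A` with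
`a(c) ≠ 0` at which the polynomial `g` over `A` has a root in the residue field. -/
def Pencil.exceptions {r : ℕ} (S : Pencil A r) (a : A) (g : A[X]) (H : Submodule k A)
    (p q μ e N : ℕ) : Set A[X] :=
  {D | D ∈ twists H N ∧ ∀ c : MaximalSpectrum A, evalAt c a ≠ 0 →
    (∃ x : A, evalAt c (g.eval x) = 0) →
      ¬ (S.at (evalAt c)).Settled p q μ e N (D.map (evalAt c))}

/-- The polynomials `D` which are settled over the coverings of the curve `w_i ^ μ = γ_i(t)` at none of
the closed points `c` of `Y = Spec A` with `a(c) ≠ 0` at which the polynomial `g` over `A` has a root in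
the residue field. -/
def Pencil.exceptionsOver {r : ℕ} (S : Pencil A r) (a : A) (g : A[X]) (H : Submodule k A)
    (p q μ e N : ℕ) {j : ℕ} (γ : Fin j → A[X]) : Set A[X] :=
  {D | D ∈ twists H N ∧ ∀ c : MaximalSpectrum A, evalAt c a ≠ 0 →
    (∃ x : A, evalAt c (g.eval x) = 0) →
      ¬ (S.at (evalAt c)).SettledOver p q μ e N (fun i => (γ i).map (evalAt c))
        (D.map (evalAt c))}

end twists

/-- separability spreads out -/
theorem exists_sep {A : Type} [CommRing A] [IsDomain A] (F : A[X]) (hF : Separable F) :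
    ∃ ρ : A, ρ ≠ 0 ∧ ∀ (κ : Type) [Field κ] (φ : A →+* κ), φ ρ ≠ 0 → (F.map φ).Separable := by
  obtain ⟨u, v, huv⟩ := hF
  obtain ⟨b1, hb1, h1⟩ := IsLocalization.integerNormalization_spec (nonZeroDivisors A) u
  obtain ⟨b2, hb2, h2⟩ := IsLocalization.integerNormalization_spec (nonZeroDivisors A) v
  set U := IsLocalization.integerNormalization (nonZeroDivisors A) u
  set V := IsLocalization.integerNormalization (nonZeroDivisors A) v
  have hb10 : b1 ≠ 0 := nonZeroDivisors.ne_zero hb1
  have hb20 : b2 ≠ 0 := nonZeroDivisors.ne_zero hb2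
  have key : (C b2 * U) * F + (C b1 * V) * derivative F = C (b1 * b2) := by
    apply map_injective (algebraMap A (FractionRing A)) (IsFractionRing.injective A _)
    rw [Polynomial.map_add, Polynomial.map_mul, Polynomial.map_mul, Polynomial.map_mul,
      Polynomial.map_mul, map_C, map_C, map_C, h1, h2, ← derivative_map]
    have e1 : b1 • u = C (algebraMap A (FractionRing A) b1) * u := by
      rw [← smul_eq_C_mul, algebraMap_smul]
    have e2 : b2 • v = C (algebraMap A (FractionRing A) b2) * v := by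
      rw [← smul_eq_C_mul, algebraMap_smul]
    rw [e1, e2, map_mul, C_mul]
    linear_combination (C (algebraMap A (FractionRing A) b1) *
      C (algebraMap A (FractionRing A) b2)) * huv
  refine ⟨b1 * b2, mul_ne_zero hb10 hb20, fun κ _ φ hφ => ?_⟩
  have h3 : (C b2 * U).map φ * F.map φ + (C b1 * V).map φ * derivative (F.map φ) =
      C (φ (b1 * b2)) := by
    rw [derivative_map, ← Polynomial.map_mul, ← Polynomial.map_mul, ← Polynomial.map_add, key,
      map_C]
  refine ⟨C (φ (b1 * b2))⁻¹ * (C b2 * U).map φ, C (φ (b1 * b2))⁻¹ * (C b1 * V).map φ, ?_⟩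
  have h4 : C (φ (b1 * b2))⁻¹ * C (φ (b1 * b2)) = (1 : κ[X]) := by
    rw [← C_mul, inv_mul_cancel₀ hφ, C_1]
  linear_combination C (φ (b1 * b2))⁻¹ * h3 + h4

theorem bernoulli (C t : ℕ) : (C + t) * C ^ t ≤ C * (C + 1) ^ t := by
  induction t with
  | zero => simp
  | succ t ih =>
    calc (C + (t + 1)) * C ^ (t + 1) = (C * C + t * C + C) * C ^ t := by ring
      _ ≤ (C * C + t * C + C + t) * C ^ t := Nat.mul_le_mul_right _ (Nat.le_add_right _ _)
      _ = (C + 1) * ((C + t) * C ^ t) := by ring
      _ ≤ (C + 1) * (C * (C + 1) ^ t) := Nat.mul_le_mul_left _ ih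
      _ = C * (C + 1) ^ (t + 1) := by ring

theorem pow_bound {C Q n : ℕ} (hC : 0 < C) (hQ : C < Q) : n * C ^ (n * C) ≤ Q ^ (n * C) := by
  have h1 := bernoulli C (n * C)
  have h2 : C * ((1 + n) * C ^ (n * C)) ≤ C * (C + 1) ^ (n * C) := by
    refine le_trans (le_of_eq ?_) h1
    ring
  have h3 := Nat.le_of_mul_le_mul_left h2 hC
  calc n * C ^ (n * C) ≤ (1 + n) * C ^ (n * C) := Nat.mul_le_mul_right _ (by omega)
    _ ≤ (C + 1) ^ (n * C) := h3
    _ ≤ _ := Nat.pow_le_pow_left hQ _

/-- the passage from the closed points to the variety -/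
theorem spread (k : Type) [Field k] [Finite k] (A : Type) [CommRing A]
    [IsDomain A] [Algebra k A] [Algebra.FiniteType k A] (hA : ¬ Module.Finite k A) (a : A)
    (ha : a ≠ 0) (g : A[X]) (hg : 0 < g.natDegree) (m₀ Q C₁ : ℕ) (hC : 0 < C₁) (hQ : C₁ < Q)
    (n : ℕ) :
    ∃ H₀ : Submodule k A, Module.Finite k H₀ ∧ ∀ H : Submodule k A, H₀ ≤ H → Module.Finite k H →
      ∀ (N : ℕ) (P : ∀ c : MaximalSpectrum A, (FieldAt c)[X] → Prop),
        (∀ c : MaximalSpectrum A, evalAt c a ≠ 0 → m₀ ≤ Nat.card (FieldAt c) →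
          Module.Finite k (FieldAt c) → Finite (FieldAt c) →
          Q * {D : (FieldAt c)[X] | D.natDegree ≤ N ∧ ¬ P c D}.ncard ≤
            C₁ * Nat.card (FieldAt c) ^ (N + 1)) →
        (twists H N).Finite ∧
          n * {D : A[X] | D ∈ twists H N ∧ ∀ c : MaximalSpectrum A, evalAt c a ≠ 0 →
            (∃ x : A, evalAt c (g.eval x) = 0) → ¬ P c (D.map (evalAt c))}.ncard ≤
              (twists H N).ncard := by
  classical
  let Z : Set (MaximalSpectrum A) :=
    {c | a ∉ c.asIdeal ∧
      (∃ x : A, g.eval x ∈ c.asIdeal) ∧ m₀ ≤ Module.finrank k (A ⧸ c.asIdeal) ∧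
      Module.Finite k (A ⧸ c.asIdeal)}
  have hZ : Z.Infinite := by
    intro hfin
    obtain ⟨b, hb⟩ := (hfin.image fun c : MaximalSpectrum A =>
      Module.finrank k (A ⧸ c.asIdeal)).bddAbove
    obtain ⟨c, h1, h2, h3, h4⟩ := Pool.Agent.Y709.Lay.existsRootPoint k A hA _ ha g hg
      (max (b + 1) m₀)
    have h5 := hb ⟨c, ⟨h1, h2, (le_max_right _ _).trans h3, h4⟩, rfl⟩
    have h6 := (le_max_left _ _).trans h3
    dsimp only at h5
    omega
  obtain ⟨T, hTZ, hTn⟩ := hZ.exists_subset_card_eq (n * C₁)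
  have hTf : ∀ c ∈ T, Finite (A ⧸ c.asIdeal) := fun c hc => by
    have h1 := (hTZ hc).2.2.2
    exact Module.finite_of_finite k
  obtain ⟨H₀, hH₀, hH₀'⟩ := Pool.Agent.Y709.Lay.exists_sub (k := k) T hTf
  refine ⟨H₀, hH₀, fun H hle hHf N P hP => ?_⟩
  have htw : (twists H N).Finite := Set.finite_coe_iff.1 (Pool.Agent.Y709.Sp.finite_grp H N)
  refine ⟨htw, ?_⟩
  have hmain := Pool.Agent.Y709.Lay.count_specC H N T hTf (hH₀' H hle)
    (fun c => {D | ¬ P c D}) Q C₁ (fun c hc => ?_)
  · set X₀ := {D : A[X] | D ∈ twists H N ∧ ∀ c : MaximalSpectrum A, evalAt c a ≠ 0 →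
            (∃ x : A, evalAt c (g.eval x) = 0) → ¬ P c (D.map (evalAt c))} with hX₀
    have hsub : X₀.ncard ≤
        {D : A[X] | (D.natDegree ≤ N ∧ ∀ j, D.coeff j ∈ H) ∧ ∀ c ∈ T,
          D.map (Ideal.Quotient.mk c.asIdeal) ∈ {D | ¬ P c D}}.ncard := by
      refine Set.ncard_le_ncard ?_ (htw.subset fun D hD => hD.1)
      rintro D ⟨hD, hex⟩
      refine ⟨hD, fun c hc => ?_⟩
      refine hex c ?_ ((hTZ hc).2.1.imp fun x hx => Ideal.Quotient.eq_zero_iff_mem.2 hx)
      intro h0
      exact (hTZ hc).1 (Ideal.Quotient.eq_zero_iff_mem.1 h0)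
    rw [hTn] at hmain
    have h3 : 0 < C₁ ^ (n * C₁) := pow_pos hC _
    have hpow : n * C₁ ^ (n * C₁) ≤ Q ^ (n * C₁) := pow_bound hC hQ
    have h4 : C₁ ^ (n * C₁) * (n * X₀.ncard) ≤ C₁ ^ (n * C₁) * (twists H N).ncard := by
      calc C₁ ^ (n * C₁) * (n * X₀.ncard) = (n * C₁ ^ (n * C₁)) * X₀.ncard := by ring
        _ ≤ Q ^ (n * C₁) * X₀.ncard := Nat.mul_le_mul_right _ hpow
        _ ≤ Q ^ (n * C₁) * _ := Nat.mul_le_mul_left _ hsub
        _ ≤ _ := hmain
    exact Nat.le_of_mul_le_mul_left h4 h3
  · obtain ⟨hc1, hc2, hc3, hc4⟩ := hTZ hc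
    have hfc : Finite (FieldAt c) := hTf c hc
    have hmax := c.isMaximal
    have hnt : Nontrivial (A ⧸ c.asIdeal) := Ideal.Quotient.nontrivial_iff.2 hmax.ne_top
    have hcard : Nat.card (FieldAt c) = Nat.card k ^ Module.finrank k (FieldAt c) :=
      Module.natCard_eq_pow_finrank (K := k) (V := A ⧸ c.asIdeal)
    have hbig' : m₀ ≤ Nat.card (FieldAt c) := by
      have h1 : Module.finrank k (FieldAt c) < Nat.card k ^ Module.finrank k (FieldAt c) :=
        Nat.lt_pow_self (Finite.one_lt_card)
      rw [hcard]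
      exact hc3.trans h1.le
    exact hP c (fun h0 => hc1 (Ideal.Quotient.eq_zero_iff_mem.1 h0)) hbig' hc4 hfc

/-- the specialisation of a pencil -/
structure Spec {A : Type} [CommRing A] {r : ℕ} (S : Pencil A r) (d b ω δ : ℕ) {κ : Type}
    [Field κ] (φ : A →+* κ) : Prop where
  diff_deg : ∀ i j, i ≠ j → ((S.at φ).root i - (S.at φ).root j).natDegree = d
  sq : Squarefree (S.at φ).differences
  coef_ne : (S.at φ).coef ≠ 0
  coef_deg : (S.at φ).coef.natDegree = S.coef.natDegree
  mult : ∀ P : κ[X], Irreducible P → ¬ P ^ (b + 1) ∣ (S.at φ).coef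
  primes : (Pool.Agent.Y709.Kum.primes (S.at φ).coef).ncard ≤ ω
  deg : ((S.at φ).coef * (S.at φ).differences).natDegree ≤ δ

theorem exists_spec {A : Type} [CommRing A] [IsDomain A] {r : ℕ} (S : Pencil A r) {d b ω : ℕ}
    (hS : S.Simple d b ω) : ∃ (ϱ : A) (δ : ℕ), ϱ ≠ 0 ∧ ∀ (κ : Type) [Field κ] (φ : A →+* κ), φ ϱ ≠ 0 →
      Spec S d b ω δ φ := by
  classical
  have hdiff : ∀ i j : Fin (r + 1), i < j → S.root j - S.root i ≠ 0 := by
    intro i j hij h0
    have h1 := hS.diff_deg j i hij.ne'
    rw [h0, natDegree_zero] at h1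
    exact absurd h1 hS.deg_pos.ne
  have hΔ0 : S.differences ≠ 0 := by
    unfold Pencil.differences
    rw [Finset.prod_ne_zero_iff]
    intro i _
    rw [Finset.prod_ne_zero_iff]
    intro j hj
    rw [Finset.mem_Ioi] at hj
    exact hdiff i j hj
  obtain ⟨ϱ, hϱ, hsep⟩ := exists_sep S.differences hS.diff_sep
  obtain ⟨F, hF, hFω, a', ha', hdvd⟩ := hS.coef_zeros
  obtain ⟨ϱ', hϱ', hsep'⟩ := exists_sep F hF
  refine ⟨S.coef.leadingCoeff * S.differences.leadingCoeff * ϱ * (ϱ' * a'),
    (S.coef * S.differences).natDegree,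
    mul_ne_zero (mul_ne_zero (mul_ne_zero (leadingCoeff_ne_zero.2 hS.coef_ne)
      (leadingCoeff_ne_zero.2 hΔ0)) hϱ) (mul_ne_zero hϱ' ha'), fun κ _ φ hne => ?_⟩
  rw [map_mul, map_mul, map_mul, map_mul] at hne
  obtain ⟨hne1, hne2⟩ := mul_ne_zero_iff.1 hne
  obtain ⟨hne3, hϱc⟩ := mul_ne_zero_iff.1 hne1
  obtain ⟨hBc, hΔc⟩ := mul_ne_zero_iff.1 hne3
  obtain ⟨hϱc', hac⟩ := mul_ne_zero_iff.1 hne2
  have hdc : ∀ i j : Fin (r + 1), i < j →
      ((S.at φ).root j - (S.at φ).root i).natDegree = d := by
    intro i j hij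
    have h1 : φ (S.root j - S.root i).leadingCoeff ≠ 0 := by
      unfold Pencil.differences at hΔc
      rw [leadingCoeff_prod, map_prod] at hΔc
      have h2 := Finset.prod_ne_zero_iff.1 hΔc i (Finset.mem_univ i)
      rw [leadingCoeff_prod, map_prod] at h2
      exact Finset.prod_ne_zero_iff.1 h2 j (Finset.mem_Ioi.2 hij)
    show ((S.root j).map φ - (S.root i).map φ).natDegree = d
    rw [← Polynomial.map_sub, natDegree_map_of_leadingCoeff_ne_zero _ h1]
    exact hS.diff_deg j i hij.ne'
  have hdmap : (S.at φ).differences = S.differences.map φ := by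
    unfold Pencil.differences Pencil.at
    rw [Polynomial.map_prod]
    refine Finset.prod_congr rfl fun i _ => ?_
    rw [Polynomial.map_prod]
    refine Finset.prod_congr rfl fun j _ => ?_
    rw [Polynomial.map_sub]
  have hdvd' : (S.at φ).coef ∣ C (φ a') * (F.map φ) ^ b := by
    have h1 := Polynomial.map_dvd φ hdvd
    rw [Polynomial.map_mul, Polynomial.map_pow, map_C] at h1
    exact h1
  have hFs := hsep' κ φ hϱc'
  refine ⟨?_, ?_, ?_, ?_, ?_, ?_, ?_⟩
  · intro i j hij
    rcases lt_or_gt_of_ne hij with h | h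
    · rw [natDegree_sub]
      exact hdc i j h
    · exact hdc j i h
  · rw [hdmap]
    exact (hsep κ φ hϱc).squarefree
  · intro h0
    have h1 : (S.coef.map φ).coeff S.coef.natDegree = 0 := by
      have h2 : S.coef.map φ = 0 := h0
      rw [h2, coeff_zero]
    rw [coeff_map] at h1
    exact hBc h1
  · exact natDegree_map_of_leadingCoeff_ne_zero _ hBc
  · exact mult_le hFs.squarefree hac hdvd'
  · exact (ncard_primes hFs.squarefree.ne_zero (dvd_of_within hac hdvd')).trans
      (natDegree_map_le.trans hFω)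
  · rw [hdmap]
    show (S.coef.map φ * S.differences.map φ).natDegree ≤ _
    rw [← Polynomial.map_mul]
    exact natDegree_map_le

/-- **Tate's Birch-Swinnerton-Dyer conjecture for the new parts of 100 per cent of the twists of split
superelliptic pencils over Kummer extensions of the function field of `Y × 𝔸¹`, for every variety `Y` of
positive dimension over a finite field, with ramification at the collisions.**

Let `q` be a power of the prime number `p`, let `k` be a finite extension of the field with `q` elements,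
let `Y` be an affine variety over `k` of positive dimension with the coordinate ring `A`, and
`K = k(Y)(t)`. Let `μ` be a divisor of `q - 1` and `ν = (q - 1) / μ`. Let `S` be a pencil
`y ^ (q - 1) = B ∏ (x - β_i) ^ (m_i)`, with `B` and `β_0, …, β_r` in `A[t]`, with simple collisions: all
differences `β_i - β_j` have exactly the degree `d ≥ 1` in `t`, and their product has no multiple zero
in an algebraic closure of `k(Y)`; there is no condition on the degree `d`. The polynomial `B ≠ 0` has at
most `ω` zeros in the algebraic closure, of multiplicity at most `b`, in arbitrary position: the twists and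
the coverings may be ramified where two sections collide. Suppose that `n' = Σ m_i < p`, `r n' ≤ q - 1`,
`4 (r + 1) ^ 2 ≤ q` and `n' + b + 3 r + 3 ≤ ν`, and let `e` be a divisor of `q - 1` and
`f = deg B + d n'`. For `D` in `A[t]` let `C_D` be the curve `y ^ (q - 1) = D B ∏ (x - β_i) ^ (m_i)` over
`K` and `A_D` the new part of its Jacobian, the part on which the group of the roots of unity of order
`q - 1` acts through characters `χ` of exact order `q - 1`.

The theorem: let `a ≠ 0` in `A`, `g` a polynomial of positive degree over `A`, and `n ≥ 1`.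

1. Let `2 e μ ^ (ω + 1) < q`. There is a finite-dimensional space `H₀` of functions on `Y` such that for
   every finite-dimensional space `H ⊇ H₀` and every degree `N` with `N + f = ν M + ρ`,
   `M ≥ 8 μ q (r + 1) ^ 2 (f + 1)`, `2 r < ρ < ν`, for all `D` of degree at most `N` in `t` with
   coefficients in `H`, outside of a proportion of at most `1 / n`, there is a closed point `c` of `Y` with
   `a(c) ≠ 0` such that `g` has a root in `k(c)`, the specialisation `D_c` has exact degree `N`, is
   squarefree and prime to `B ∏ (β_j - β_i)` at `c`, and the `L`-functions of the specialisation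
   `A_{D, c}` do not vanish at any point `T` with `(#k(c) T) ^ e = 1` over any Galois covering of the
   `t`-line over `k(c)` as in `IsLayer`: its group is an extension of an abelian group of exponent
   dividing `μ` by a `p`-group, its Kummer generators `w_i ^ μ = γ_i(t)` have their zeros among those of
   `B_c`, and it is unramified outside of the zeros of `D_c B_c` and `∞`.
2. Let `γ_1, …, γ_j ≠ 0` be polynomials in `A[t]` all of whose zeros are zeros of `B`, and let
   `2 e μ ^ j < q`, with `ω` as large as one likes. Then the same holds over the coverings in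
   `IsLayerOver` at `c`: the coverings of `p`-power degree, Galois over the line, of the curve
   `w_i ^ μ = γ_i(t)` at `c`. For `j = 0` and `μ = 1` these are all Galois coverings with a `p`-group.

So the density of the `D` without such a point is zero (`H` growing, `N` arbitrary).

This implies the conjecture for `A_D` over `K' = k(Y')(t)` for every variety `Y'` that is generically finite
over `Y`, and over the extension of `K'` generated by the `μ`-th roots of all polynomials in `A[t]` whose
zeros are zeros of `B`, in (1), of `γ_1, …, γ_j`, in (2); if `B` is in `k[t]`, also over the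
composita of these fields with every finite Galois extension `L` of `k(t)` that is unramified outside of the
zeros of `B` and `∞` and whose group is an extension of an abelian group of exponent dividing `μ` by a
`p`-group, in (1), with the zeros of its Kummer generators among those of `B`. The argument is
the one of the file `DensityOneTwists`. We may assume that the function field of `Y'` is separable over the
one of `Y`, and take for `g` a multiple of the minimal polynomial of a generator, and choose `a` such that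
`Y` is smooth, the leading coefficient and the discriminant of `g` are invertible, and `S` is equisingular
where `a ≠ 0`. Then the zeros of `D B ∏ (β_j - β_i)` form a finite étale covering of a
neighbourhood `U` of `c` (after a purely inseparable base change), the ramification of the coverings over
them is tame, or constant along `Y`, and with `π : V → U` for the inverse image of the complement in the
covering, and `R` for the tame sheaf of the `χ`-parts of the first cohomology of the fibres of `C_D`, the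
sheaf `R¹π_! R` on `U` is lisse and `R²π_! R` is zero. A root of `g` in `k(c)` gives a closed point of `Y'`
above `c` with the same residue field, and the number `#k(c)` is not an eigenvalue of the Frobenius at
`c`, by the theorem. By Deligne the order of `Φ₁` at `s = dim Y + 1` is the multiplicity of an eigenvalue
of the Frobenius on the cohomology with compact support in the top degree `2 dim Y` of the inverse image of
`U`, which is a group of coinvariants, twisted, and a quotient of the stalk at `c`. So the order is zero,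
and the rank of `A_D` is zero as well. -/
theorem result (k : Type) [Field k] [Finite k] (p : ℕ) [Fact p.Prime] [CharP k p] (a₀ s q : ℕ)
    (ha₀ : 0 < a₀) (hs : 0 < s) (hq : q = p ^ a₀) (hk : Nat.card k = q ^ s) (A : Type) [CommRing A]
    [IsDomain A] [Algebra k A] [Algebra.FiniteType k A] (hA : ¬ Module.Finite k A) (a : A)
    (ha : a ≠ 0) (g : A[X]) (hg : 0 < g.natDegree) (μ ν : ℕ) (hμ : 0 < μ) (hμν : μ * ν = q - 1)
    (r : ℕ) (S : Pencil A r) (d b ω : ℕ) (hS : S.Simple d b ω)
    (hchar : S.degX < p) (hdeg : r * S.degX ≤ q - 1) (hr : 4 * (r + 1) ^ 2 ≤ q)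
    (hb : S.degX + b + 3 * r + 3 ≤ ν) (e : ℕ) (he : e ∣ q - 1)
    (f : ℕ) (hf : f = S.coef.natDegree + d * S.degX) (n : ℕ) :
    (2 * e * μ ^ (ω + 1) < q →
      ∃ H₀ : Submodule k A, Module.Finite k H₀ ∧ ∀ H : Submodule k A, H₀ ≤ H → Module.Finite k H →
        ∀ M ρ N : ℕ, 8 * μ * q * (r + 1) ^ 2 * (f + 1) ≤ M → 2 * r < ρ → ρ < ν →
          N + f = ν * M + ρ →
          (twists H N).Finite ∧
            n * (S.exceptions a g H p q μ e N).ncard ≤ (twists H N).ncard) ∧
    ∀ (j : ℕ) (γ : Fin j → A[X]), (∀ i, γ i ≠ 0) → (∀ i, ∃ m : ℕ, Within (γ i) S.coef m) →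
      2 * e * μ ^ j < q →
      ∃ H₀ : Submodule k A, Module.Finite k H₀ ∧ ∀ H : Submodule k A, H₀ ≤ H → Module.Finite k H →
        ∀ M ρ N : ℕ, 8 * μ * (r + 1) ^ 2 * (f + (q - 1) * (∑ i, (γ i).natDegree) + 1) ≤ M →
          2 * r < ρ → ρ < ν → N + f = ν * M + ρ →
          (twists H N).Finite ∧
            n * (S.exceptionsOver a g H p q μ e N γ).ncard ≤ (twists H N).ncard := by
  classical
  obtain ⟨ϱ, δ, hϱ, hspec⟩ := exists_spec S hS
  have hsize : ∀ c : MaximalSpectrum A, Module.Finite k (FieldAt c) →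
      0 < Module.finrank k (FieldAt c) ∧
        Nat.card (FieldAt c) = q ^ (s * Module.finrank k (FieldAt c)) ∧
        CharP (FieldAt c) p := by
    intro c hc
    have hmax := c.isMaximal
    have hmf : Module.Finite k (A ⧸ c.asIdeal) := hc
    have hnt : Nontrivial (A ⧸ c.asIdeal) := Ideal.Quotient.nontrivial_iff.2 hmax.ne_top
    have hcard : Nat.card (FieldAt c) = Nat.card k ^ Module.finrank k (FieldAt c) :=
      Module.natCard_eq_pow_finrank (K := k) (V := A ⧸ c.asIdeal)
    exact ⟨Module.finrank_pos (R := k) (M := A ⧸ c.asIdeal), by rw [hcard, hk, pow_mul],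
      charP_of_injective_algebraMap (algebraMap k (FieldAt c)).injective p⟩
  refine ⟨fun hbig => ?_, fun j γ hγ0 hγ hbig => ?_⟩
  · obtain ⟨H₀, hH₀, hH₀'⟩ := spread k A hA (a * ϱ) (mul_ne_zero ha hϱ) g hg (2 * q * (δ + 3))
      (2 * q) (2 * (2 * e * μ ^ (ω + 1)) + 1) (by omega) (by omega) n
    refine ⟨H₀, hH₀, fun H hle hHf M ρ N hM hρ hρν hN => ?_⟩
    obtain ⟨h1, h2⟩ := hH₀' H hle hHf N
      (fun c D => (S.at (evalAt c)).Settled p q μ e N D) (fun c hc hcard hc1 hc2 => by
        rw [map_mul] at hc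
        have hsp := hspec (FieldAt c) (evalAt c) (mul_ne_zero_iff.1 hc).2
        obtain ⟨h3, h4, h5⟩ := hsize c hc1
        exact ncard_not_settled (κ := FieldAt c) (p := p)
          ha₀ (Nat.mul_pos hs h3) hq h4 (S.at (evalAt c)) hS.deg_pos
          (fun i => natDegree_map_le.trans (hS.root_deg i)) hsp.diff_deg hsp.sq hS.mult_pos
          hsp.coef_ne hμ hμν hsp.mult hchar hdeg hr hb he (by rw [hsp.coef_deg]; exact hf)
          hsp.deg hcard hsp.primes hM hρ hρν hN)
    refine ⟨h1, le_trans (Nat.mul_le_mul_left n (Set.ncard_le_ncard ?_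
      (h1.subset fun D hD => hD.1))) h2⟩
    rintro D ⟨hD, hex⟩
    refine ⟨hD, fun c hc hx => hex c ?_ hx⟩
    rw [map_mul] at hc
    exact (mul_ne_zero_iff.1 hc).1
  · choose m a' ha' hdvd using hγ
    set ϱ' : A := ∏ i, ((γ i).leadingCoeff * a' i) with hϱ'
    have hϱ'0 : ϱ' ≠ 0 := Finset.prod_ne_zero_iff.2 fun i _ =>
      mul_ne_zero (leadingCoeff_ne_zero.2 (hγ0 i)) (ha' i)
    obtain ⟨H₀, hH₀, hH₀'⟩ := spread k A hA (a * (ϱ * ϱ')) (mul_ne_zero ha (mul_ne_zero hϱ hϱ'0))
      g hg (2 * q * (δ + 3)) (2 * q) (2 * (2 * e * μ ^ j) + 1) (by omega) (by omega) n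
    refine ⟨H₀, hH₀, fun H hle hHf M ρ N hM hρ hρν hN => ?_⟩
    obtain ⟨h1, h2⟩ := hH₀' H hle hHf N
      (fun c D => (S.at (evalAt c)).SettledOver p q μ e N (fun i => (γ i).map (evalAt c)) D)
      (fun c hc hcard hc1 hc2 => by
        rw [map_mul, map_mul] at hc
        have hc3 := (mul_ne_zero_iff.1 hc).2
        have hsp := hspec (FieldAt c) (evalAt c) (mul_ne_zero_iff.1 hc3).1
        have hc4 := (mul_ne_zero_iff.1 hc3).2
        rw [hϱ', map_prod] at hc4
        have hc5 : ∀ i, evalAt c (γ i).leadingCoeff ≠ 0 ∧ evalAt c (a' i) ≠ 0 := fun i => by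
          have h6 := Finset.prod_ne_zero_iff.1 hc4 i (Finset.mem_univ i)
          rw [map_mul] at h6
          exact mul_ne_zero_iff.1 h6
        obtain ⟨h3, h4, h5⟩ := hsize c hc1
        refine ncard_not_settledOver (κ := FieldAt c) (p := p)
          ha₀ (Nat.mul_pos hs h3) hq h4 (S.at (evalAt c)) hS.deg_pos
          (fun i => natDegree_map_le.trans (hS.root_deg i)) hsp.diff_deg hsp.sq hS.mult_pos
          hsp.coef_ne hμ hμν hsp.mult hchar hdeg hr hb he (by rw [hsp.coef_deg]; exact hf)
          hsp.deg hcard _ (fun i h0 => ?_) (fun i => ?_) ?_ hM hρ hρν hN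
        · have h6 : ((γ i).map (evalAt c)).coeff (γ i).natDegree = 0 := by
            rw [h0, coeff_zero]
          rw [coeff_map] at h6
          exact (hc5 i).1 h6
        · have h6 := Polynomial.map_dvd (evalAt c) (hdvd i)
          rw [Polynomial.map_mul, Polynomial.map_pow, map_C] at h6
          exact dvd_of_within (hc5 i).2 h6
        · exact Finset.sum_le_sum fun i _ => natDegree_map_le)
    refine ⟨h1, le_trans (Nat.mul_le_mul_left n (Set.ncard_le_ncard ?_
      (h1.subset fun D hD => hD.1))) h2⟩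
    rintro D ⟨hD, hex⟩
    refine ⟨hD, fun c hc hx => hex c ?_ hx⟩
    rw [map_mul] at hc
    exact (mul_ne_zero_iff.1 hc).1

end Pool.Agent.Results.MP_9faec4_nt.KummerCoveringsOfVarieties
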