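import Pool.Agent.Y707.PC.Fin

/-!
# Tate's form of the Birch–Swinnerton-Dyer conjecture for linear pencils of hyperelliptic curves

`V` is the variety of the points `(x, y)` with `y_i ^ 2 = G_i(x)`, over the number field `K`, for
polynomials `G_i` in `k` variables such that no product of some of them is a constant times a square:
all function fields of characteristic zero that are generated over a purely transcendental extension of
a number field by square roots are of this form.  `X` is the curve `Y ^ 2 = a(x, X) + w ∏ (X - α_j(x))`
of genus `g` over the finitely generated field `E(V × 𝔸¹) = E(V)(w)`, for any number field `E ⊇ K`.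

We prove Q1 for all these curves, over all number fields `E ⊇ K` at once.  The model `𝒴` over the ring
of integers of `E` is the variety of the points `(x, y, w)` with `y_i ^ 2 = G_i(x) ≠ 0` for which the
curve is smooth, without the primes above the finite set `R`; its dimension is `k + 2`.  The Frobenius
eigenvalues on `H¹` of the fibres over all closed points exist (the Riemann hypothesis for these curves
is proved), the Euler product `Φ₁` over all closed points converges for `Re s > k + 2 + 1/2`, it continues
meromorphically to the half-line `[k + 2, ∞)`, and its order at `s = k + 2 = dim 𝒴` is the rank of the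
group `Pic⁰ X`, which is a free abelian group: the number `count` of the `j` such that `a(α_j)` is a
square in `E(V)`.
-/

set_option autoImplicit false
set_option maxHeartbeats 400000

namespace Pool.Agent.Results.MP_9faec4_nt.LinearPencils

open Polynomial NumberField IsDedekindDomain Pool.Agent.Y707.PC
open Pool.Agent.Y707.RX (Continues)

theorem result (K : Type) [Field K] [NumberField K] (k l r g : ℕ)
    (G : Fin l → MvPolynomial (Fin k) (𝓞 K)) (a : (MvPolynomial (Fin k) (𝓞 K))[X])
    (α : Fin r → MvPolynomial (Fin k) (𝓞 K)) (h : IsPencil g G a α)
    (E : IntermediateField K (AlgebraicClosure K)) [NumberField E] :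
    -- the base has dimension `k + 1` over the number field, its model over the integers `k + 2`
    (pencil g G a α).m = k + 1 ∧
    -- the analytic side: the Euler product `Φ₁` over `E(𝒴)`, without the primes above `R`, continues
    -- meromorphically to `[k + 2, ∞)`, and its order at `k + 2` is `count`
    (∀ R : Finset (HeightOneSpectrum (𝓞 K)), Continues (pencil g G a α) R E (count G a α E)) ∧
    -- the algebraic side: `Pic⁰ X` over `M(w)`, for the function field `M` of `V` over `E`
    (∀ (M : Type) [Field M] [Algebra E M] (ξ : Fin k → M) (η : Fin l → M),
      IsFunctionField G E ξ η → IsSmoothCurve g (generic a α E ξ) ∧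
        PicFreeOfRank (generic a α E ξ) (count G a α E)) ∧
    -- the function field exists
    (∃ (M : Type) (_ : Field M) (_ : Algebra E M) (ξ : Fin k → M) (η : Fin l → M),
      IsFunctionField G E ξ η) := by
  refine ⟨rfl, fun R => analytic h.independent h.monic h.degree h.number h.nonzero h.distinct E R,
    fun M _ _ ξ η hM => ?_, exists_field G E⟩
  obtain ⟨h1, h2, h3, h4⟩ := algebraic h.independent h.monic h.degree h.number h.nonzero h.distinct E
    hM.1 hM.2.1 hM.2.2
  exact ⟨⟨h1, h2, h3⟩, h4⟩

end Pool.Agent.Results.MP_9faec4_nt.LinearPencils
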