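import Pool.Agent.V11290.UL.FG

/-!
# A numerical criterion for the order in Tate's conjecture over finitely generated fields

Let `K` be a finitely generated field of characteristic `0` and of transcendence degree `n ≥ 1`, and let
`X` be a smooth projective geometrically connected variety over `K`.  The field `K` is the field of
fractions of a domain `R` that is finite over `ℤ[x_1, …, x_n]`, and there is a smooth model of `X` over an
open subset `𝒴` of `Spec R`; the dimension of `𝒴` is `e = n + 1`.  The function `Φ₁(s)` is the product of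
`P_y(q_y^{-s})⁻¹` over the closed points `y` of `𝒴`, with the characteristic polynomials `P_y` of Frobenius
on `H¹` of the fibres.  Tate predicts that the order of `Φ₁` at `s = e` is the rank `r` of `Pic⁰(X)(K)`.

For an angle `γ` consider the sums

`S_γ(x) = ∑_y cos(γ log q_y / log x) / Γ(1 + log q_y / log x) * log P_y(q_y^{-e})`.

Let `Φ₁` have a continuation along the real axis to `s = e`, meromorphic at the real points of
`[e, e + 1/2]`.  We prove, with no hypothesis on the zeros and poles: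

* for every angle `γ > π/2` the order of `Φ₁` at `e` is `r` if and only if
  `S_γ(x) = r log log x + O(1)`;
* for an angle `0 ≤ γ < π/2` this asymptotic formula holds if and only if the order is `r` and `Φ₁` has no
  zeros and poles on the real interval `(e, e + 1/2]`;
* if the rightmost real zero or pole beyond `e` is at `e + δ`, then, for `0 ≤ γ < π/2`, the sum
  `S_γ(x)` exceeds `exp (x^y)` infinitely often, in the direction of its sign, for every `y < δ`.

In the theorem `𝒴` is an arbitrary set of closed points of `Spec R`; the absolute convergence of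
`∑ q_y^{-σ}` for `σ > e` is proved.

The tools (rotated Mittag-Leffler sums) were developed for elliptic curves over number fields by the
helpers 187, 189, 125, 349, 371, 376 of an earlier round, the closed points of schemes of finite type by
the helpers 126, 385.
-/

set_option autoImplicit false

namespace Pool.Agent.Results.MP_9faec4_nt.NumericalCriterion

open Filter Topology Polynomial Set

variable {R : Type} [CommRing R] {l : ℕ}

/-- The set `X` of homogeneous polynomials over a ring `R` in `l` variables defines a projective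
scheme over `R`.  For a field `κ` with `q` elements and a homomorphism `R → κ` this is `(q - 1)`
times the number of the points of `X` with coordinates in `κ`: the number of the nonzero solutions
of the equations. -/
noncomputable def cone (X : Set (MvPolynomial (Fin l) R)) {κ : Type} [Field κ] (φ : R →+* κ) : ℕ :=
  Nat.card {u : Fin l → κ // u ≠ 0 ∧ ∀ f ∈ X, MvPolynomial.eval₂ φ u f = 0}

/-- The number `q_y` of elements of the residue field of the closed point `y`. -/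
noncomputable def q (y : MaximalSpectrum R) : ℝ := (Nat.card (R ⧸ y.asIdeal) : ℝ)

/-- `α_1, …, α_N` are the eigenvalues of the geometric Frobenius on `H^i` of the fibre at the closed
point `y` of the family `X` of projective varieties of dimension `d`: there are finite multisets `β_k` of
complex numbers of absolute value `q_y^{k/2}`, `k = 0, …, 2d`, with `β_i = {α_1, …, α_N}`, such that for
every finite extension `κ` of the residue field of `y`, of degree `e`, the number of the points of the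
fibre with coordinates in `κ` is `∑ (-1)^k ∑_{z ∈ β_k} z^e`.  By the theorem of Deligne such `β_k` exist
if the fibre is smooth, with `N` the `i`-th Betti number; for `k ≤ 2d` they are unique. -/
def IsFrobenius (X : Set (MvPolynomial (Fin l) R)) (d i : ℕ) (y : MaximalSpectrum R) {N : ℕ}
    (α : Fin N → ℂ) : Prop :=
  ∃ β : ℕ → Multiset ℂ, β i = Finset.univ.val.map α ∧
    (∀ k, ∀ z ∈ β k, ‖z‖ = q y ^ ((k : ℝ) / 2)) ∧
    ∀ (κ : Type) [Field κ] [Finite κ] (φ : R →+* κ) (e : ℕ), RingHom.ker φ = y.asIdeal →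
      Nat.card κ = Nat.card (R ⧸ y.asIdeal) ^ e →
      (cone X φ : ℂ) = ((q y : ℂ) ^ e - 1) *
          ∑ k ∈ Finset.range (2 * d + 1), (-1 : ℂ) ^ k * ((β k).map (fun z => z ^ e)).sum

/-- `𝒴` is a set of closed points of `Spec R`, and `P_y`, `y ∈ 𝒴`, are the characteristic polynomials
`P_{y,1}(T)` of the geometric Frobenius on `H¹` of the fibres of `X`. -/
def IsLocalSystem (X : Set (MvPolynomial (Fin l) R)) (d N : ℕ) (𝒴 : Set (MaximalSpectrum R))
    (P : MaximalSpectrum R → ℤ[X]) : Prop :=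
  ∀ y ∈ 𝒴, ∃ α : Fin N → ℂ, IsFrobenius X d 1 y α ∧ ∀ z : ℂ, aeval z (P y) = ∏ j, (1 - α j * z)

/-- `Φ` is a continuation of the product `Φ₁(s) = ∏_y P_y(q_y^{-s})⁻¹` from the half-plane
`Re s > e + 1/2` along the real axis to the point `e`. -/
def IsContinuation (e : ℕ) (𝒴 : Set (MaximalSpectrum R)) (P : MaximalSpectrum R → ℤ[X])
    (Φ : ℂ → ℂ) : Prop :=
  (∀ x : ℝ, e ≤ x → x ≤ e + 1 / 2 → MeromorphicAt Φ (x : ℂ)) ∧
  ∀ s : ℂ, e + 1 / 2 < s.re → HasProd (fun y : 𝒴 => (aeval ((q y.1 : ℂ) ^ (-s)) (P y.1))⁻¹) (Φ s)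

/-- The term at `y` of the sum `S_γ(x)`. -/
noncomputable def term (e : ℕ) (P : MaximalSpectrum R → ℤ[X]) (γ x : ℝ) (y : MaximalSpectrum R) :
    ℝ :=
  Real.cos (γ * (Real.log (q y) / Real.log x)) / Real.Gamma (1 + Real.log (q y) / Real.log x) *
    Real.log (aeval (q y ^ (-(e : ℝ))) (P y))

/-- `S_γ(x) = ∑_{y ∈ 𝒴} cos(γ log q_y / log x) / Γ(1 + log q_y / log x) * log P_y(q_y^{-e})`. -/
noncomputable def rotatedSum (e : ℕ) (𝒴 : Set (MaximalSpectrum R)) (P : MaximalSpectrum R → ℤ[X])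
    (γ x : ℝ) : ℝ :=
  ∑' y : 𝒴, term e P γ x y.1

/-- The asymptotic formula `S_γ(x) = r log log x + O(1)`. -/
def Law (e : ℕ) (𝒴 : Set (MaximalSpectrum R)) (P : MaximalSpectrum R → ℤ[X]) (γ : ℝ) (r : ℤ) :
    Prop :=
  ∃ C x₀ : ℝ, ∀ x ≥ x₀, |rotatedSum e 𝒴 P γ x - r * Real.log (Real.log x)| ≤ C

/-- **A numerical criterion for the order in Tate's conjecture.**  Here `e = n + 1` is the dimension
of `Spec R`. -/
theorem result (n : ℕ) (hn : 1 ≤ n) [Algebra (MvPolynomial (Fin n) ℤ) R]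
    [Module.Finite (MvPolynomial (Fin n) ℤ) R] (X : Set (MvPolynomial (Fin l) R)) (d N : ℕ)
    (𝒴 : Set (MaximalSpectrum R)) (P : MaximalSpectrum R → ℤ[X])
    (hP : IsLocalSystem X d N 𝒴 P) (Φ : ℂ → ℂ) (hΦ : IsContinuation (n + 1) 𝒴 P Φ) :
    (∀ y ∈ 𝒴, 0 < aeval (q y ^ (-((n + 1 : ℕ) : ℝ))) (P y)) ∧
    (∀ γ x : ℝ, 1 < x → Summable fun y : 𝒴 => ‖term (n + 1) P γ x y.1‖) ∧
    (∃ ρ : ℤ, meromorphicOrderAt Φ ((n + 1 : ℕ) : ℂ) = ρ) ∧
    (∀ (r : ℤ) (γ : ℝ), Real.pi / 2 < γ →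
      (meromorphicOrderAt Φ ((n + 1 : ℕ) : ℂ) = r ↔ Law (n + 1) 𝒴 P γ r)) ∧
    (∀ (r : ℤ) (γ : ℝ), 0 ≤ γ → γ < Real.pi / 2 → (Law (n + 1) 𝒴 P γ r ↔
      meromorphicOrderAt Φ ((n + 1 : ℕ) : ℂ) = r ∧
        ∀ x : ℝ, ((n + 1 : ℕ) : ℝ) < x → x ≤ ((n + 1 : ℕ) : ℝ) + 1 / 2 →
          meromorphicOrderAt Φ (x : ℂ) = 0)) ∧
    ∀ (x₀ : ℝ) (μ : ℤ), ((n + 1 : ℕ) : ℝ) < x₀ → x₀ ≤ ((n + 1 : ℕ) : ℝ) + 1 / 2 → μ ≠ 0 →
      meromorphicOrderAt Φ (x₀ : ℂ) = μ →
      (∀ x : ℝ, x₀ < x → x ≤ ((n + 1 : ℕ) : ℝ) + 1 / 2 → meromorphicOrderAt Φ (x : ℂ) = 0) →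
      ∀ γ : ℝ, 0 ≤ γ → γ < Real.pi / 2 → ∀ y : ℝ, y < x₀ - ((n + 1 : ℕ) : ℝ) → ∀ D : ℝ,
        ∃ᶠ x : ℝ in atTop,
          Real.exp (x ^ y) + D * Real.log x ≤ (μ.sign : ℝ) * rotatedSum (n + 1) 𝒴 P γ x := by
  have hev : ∀ (y : MaximalSpectrum R) (z : ℂ),
      aeval z ((P y).map (algebraMap ℤ ℝ)) = aeval z (P y) := fun y z =>
    Polynomial.aeval_map_algebraMap ℝ z (P y)
  have hevr : ∀ (y : MaximalSpectrum R) (z : ℝ),
      ((P y).map (algebraMap ℤ ℝ)).eval z = aeval z (P y) := fun y z =>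
    Polynomial.eval_map_algebraMap (P y) z
  have hR := Pool.Agent.V11290.UL.finRes_fin n R
  have hc := Pool.Agent.V11290.UL.countable_pts n R
  have h2 : ∀ y : MaximalSpectrum R, 2 ≤ q y := fun y => by
    have := Pool.Agent.W385.CP.two_le_qn y
    unfold q
    exact_mod_cast this
  have hsum : ∀ σ : ℝ, (((n + 1 : ℕ) : ℝ)) < σ → Summable fun y : 𝒴 => q y.1 ^ (-σ) := by
    intro σ hσ
    push_cast at hσ
    exact (Pool.Agent.V11290.UL.qn_summable n R hσ).comp_injective Subtype.val_injective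
  have he : (1 : ℝ) < ((n + 1 : ℕ) : ℝ) := by
    have : (1 : ℝ) ≤ n := by exact_mod_cast hn
    push_cast
    linarith
  have F : Pool.Agent.V11290.UL.Fam (P := 𝒴) ((n + 1 : ℕ) : ℝ) ((n + 1 : ℕ) : ℝ) N
      (fun y => q y.1) (fun y => (P y.1).map (algebraMap ℤ ℝ)) := by
    refine ⟨he.le, fun y => h2 y.1, hsum, fun y => ?_⟩
    obtain ⟨α, ⟨β, h3, h4, -⟩, h5⟩ := hP y.1 y.2
    refine ⟨α, fun j => ?_, fun z => ?_⟩
    · have h6 : α j ∈ β 1 := by
        rw [h3]
        exact Multiset.mem_map_of_mem _ (Finset.mem_univ_val j)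
      rw [h4 1 _ h6]
      have h7 : ((n + 1 : ℕ) : ℝ) + 1 / 2 - ((n + 1 : ℕ) : ℝ) = ((1 : ℕ) : ℝ) / 2 := by
        push_cast
        ring
      rw [h7]
    · rw [hev]
      exact h5 z
  have h := F.main (Pool.Agent.V11290.UL.mert_gt he (fun y => h2 y.1) hsum) (L := Φ)
    (E := fun _ => 1) (fun x hx => hΦ.1 x hx.1 hx.2)
    (fun x _ => ⟨analyticAt_const, one_ne_zero⟩)
    (fun s hs => by
      have := hΦ.2 s hs
      simp only [hev, mul_one]
      exact this)
  have hterm : ∀ (γ x : ℝ) (y : 𝒴), term (n + 1) P γ x y.1 =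
      Real.cos (γ * (Real.log (q y.1) / Real.log x)) /
        Real.Gamma (1 + Real.log (q y.1) / Real.log x) *
        Real.log (((P y.1).map (algebraMap ℤ ℝ)).eval (q y.1 ^ (-((n + 1 : ℕ) : ℝ)))) := by
    intro γ x y
    rw [hevr]
    rfl
  have hrs : ∀ γ x : ℝ, rotatedSum (n + 1) 𝒴 P γ x = Pool.Agent.V11290.UL.lsum
      (fun y : 𝒴 => q y.1) (fun y => ((P y.1).map (algebraMap ℤ ℝ)).eval
        (q y.1 ^ (-((n + 1 : ℕ) : ℝ)))) γ x := fun γ x => tsum_congr (hterm γ x)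
  have hlaw : ∀ (r : ℤ) (γ : ℝ), Law (n + 1) 𝒴 P γ r ↔ ∃ C x₀ : ℝ, ∀ x ≥ x₀,
      |Pool.Agent.V11290.UL.lsum (fun y : 𝒴 => q y.1)
        (fun y => ((P y.1).map (algebraMap ℤ ℝ)).eval (q y.1 ^ (-((n + 1 : ℕ) : ℝ)))) γ x -
        r * Real.log (Real.log x)| ≤ C := by
    intro r γ
    unfold Law
    simp only [hrs]
  have hcoe : (((n + 1 : ℕ) : ℝ) : ℂ) = ((n + 1 : ℕ) : ℂ) := by push_cast; rfl
  refine ⟨fun y hy => ?_, fun γ x hx => ?_, ?_, ?_, ?_, ?_⟩
  · rw [← hevr]
    exact h.pos ⟨y, hy⟩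
  · simp only [hterm]
    exact h.summable γ x hx
  · obtain ⟨ρ, hρ⟩ := WithTop.ne_top_iff_exists.1 h.ne_top
    rw [hcoe] at hρ
    exact ⟨ρ, hρ.symm⟩
  · intro r γ hγ
    rw [hlaw, h.high r γ hγ, hcoe]
  · intro r γ h0 h1
    rw [hlaw, h.low r γ h0 h1, hcoe]
    exact and_congr_right fun _ => ⟨fun h x h2 h3 => h x ⟨h2, h3⟩, fun h x hx => h x hx.1 hx.2⟩
  · intro x₀ μ h1 h2 h3 h4 h5 γ h6 h7 y h8 D
    simp only [hrs]
    exact h.growth x₀ μ h1 h3 h4 h5 h2 γ h6 h7 y h8 D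

end Pool.Agent.Results.MP_9faec4_nt.NumericalCriterion
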