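import Pool.Agent.Results.MP_787500_nt.LayersBlochKatoLaw
import Pool.Agent.V11291.RG.Chain

/-!
# Quadratic extensions of arbitrary multiquadratic fields without growth of the rank and of the order
# of the `L`-function: exact proportions, and infinite towers

`E` is the modular curve `X_0(14)`, an elliptic curve without complex multiplication with one rational
point of order two.  The class `Adm` consists of the squarefree integers, positive or negative, `1`
modulo `4`, squares modulo `7`, whose prime divisors split completely in `ℚ(i, √2, √-7)` or are inert in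
`ℚ(√2)` and in `ℚ(√-7)`, and are inert in the cyclotomic `ℤ₃`-extension of `ℚ`.

Let `S` be ANY finite subset of the class, independent modulo squares; nothing is assumed about the rank
of `E` and about the zeros of the `L`-function over the fields `F = K(√d : d ∈ S)`, where `K` runs
through all the layers of the cyclotomic `ℤ₃`-extension of `ℚ`.  Let `D` be an element of the class,
independent of `S`.  If for the squarefree parts `D'` of the `2^#S` products of `D` with elements of `S`
the ranks of `E_{D'}(K)` are zero and `Ш(E_{D'}/K)[2] = 0`, then for all `K` and `F' = F(√D)`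

* `L(E/F, s)` and `L(E/F', s)` are entire and have the same order at `s = 1`,
* `E(F)` and `E(F')` have the same rank; the rank of `E_D(F)` is zero and `Ш(E_D/F)[2^∞]` is killed by
  `2^#S`.

So Tate's conjecture (Birch and Swinnerton-Dyer) for `E` over `F` is equivalent to that over `F'`.  The
`D` with this property have the proportion exactly `c^(2^#S)`, `c = ∏_{i ≥ 0} (1 - 2^{-(2 i + 1)})`,
among the positive and among the negative numbers of the class; and there are infinite towers of
quadratic extensions of `F` of this kind, the same for all `K`.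

The proof.  The `L`-function over a multiquadratic field is the product of the `L`-functions of the
twists; the values at the characters of `Gal(K/ℚ)` of order divisible by three do not vanish
(unconditionally, library); the ranks of all twists over `K` are those over `ℚ` (2-descent over `K`,
library).  The criterion for the rank zero twists is a nonsingular matrix over `𝔽₂`.  The proportion is
the joint law for `2^#S` twists (the sieve of `TwoPartIndependence`, problem `MP_e996df_nt`).
-/

set_option autoImplicit false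

open NumberField IsDedekindDomain Filter Topology

namespace Pool.Agent.Results.MP_9faec4_nt.StableExtensions

open scoped Classical

open Pool.Agent.TH841.NF.D (Sha)

open Pool.Agent.Results.MP_787500_nt.LayersBlochKatoLaw (E base factor rank twist multiquadratic
  cyclotomic Adm Small count cc Proportion Many Independent Criterion adm_iff mat_eq small_iff
  factor_eq rank_eq)

/-- `S` is a subset of the class, independent modulo squares. -/
def IsBase (S : Finset ℤ) : Prop := (∀ d ∈ S, Adm d) ∧
  ∀ T ⊆ S, T.Nonempty → ¬ IsSquare (∏ d ∈ T, d)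

/-- `L(E/F, s)` is entire, and its order at `s = 1` is `n`. -/
def HasOrder (F : Type) [Field F] [NumberField F] (n : ℕ) : Prop :=
  ∃ L : ℂ → ℂ, Differentiable ℂ L ∧
    (∀ s : ℂ, 3 / 2 < s.re → HasProd (factor (K := F) E s) (L s)) ∧ analyticOrderAt L 1 = n

/-- The conjecture for `E` over `F`: `L(E/F, s)` is entire, and its order at `s = 1` is the rank. -/
def Conjecture (F : Type) [Field F] [NumberField F] : Prop := HasOrder F (rank F E)

/-- The `L`-functions of `E` over `F` and `F'` are entire and have the same order at `s = 1`, the ranks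
of `E(F)` and `E(F')` are equal, and so the conjectures over `F` and over `F'` are equivalent. -/
def Same (F F' : Type) [Field F] [NumberField F] [Field F'] [NumberField F'] : Prop :=
  (∃ n : ℕ, HasOrder F n ∧ HasOrder F' n) ∧ rank F' E = rank F E ∧ (Conjecture F ↔ Conjecture F')

/-- The rank of `E_D(F)` is zero and the 2-primary part of `Ш(E_D/F)` is killed by `2^n`. -/
def TwistZero (F : Type) [Field F] [NumberField F] (D : ℤ) (n : ℕ) : Prop :=
  rank F (twist D) = 0 ∧ ∀ (k : ℕ) (y : Sha (base (twist D) F)), 2 ^ k • y = 0 → 2 ^ n • y = 0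

/-- For all the layers `K` of the cyclotomic `ℤ₃`-extension, `F = K(√d : d ∈ S)` and `F' = F(√D)`. -/
def Stable (S : Finset ℤ) (D : ℤ) : Prop :=
  ∀ (m : ℕ) (K F F' : IntermediateField ℚ ℂ) [NumberField K] [NumberField F] [NumberField F'],
    K ≤ cyclotomic (3 ^ (m + 1)) → Odd (Module.finrank ℚ K) → F = multiquadratic S ⊔ K →
    F' = multiquadratic (insert D S) ⊔ K →
    Module.finrank ℚ F' = 2 * Module.finrank ℚ F ∧ Same F F' ∧ TwistZero F D S.card

/-- For all `n` and all the layers `K` the field `K(√d : d ∈ S ∪ {d_0, …, d_{n-1}})` has the degree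
`2^n` over `F = K(√d : d ∈ S)`, and the order and the rank over it are the same as over `F`. -/
def Tower (S : Finset ℤ) (d : ℕ → ℤ) : Prop :=
  ∀ (n m : ℕ) (K F F' : IntermediateField ℚ ℂ) [NumberField K] [NumberField F] [NumberField F'],
    K ≤ cyclotomic (3 ^ (m + 1)) → Odd (Module.finrank ℚ K) → F = multiquadratic S ⊔ K →
    F' = multiquadratic (S ∪ (Finset.range n).image d) ⊔ K →
    Module.finrank ℚ F' = 2 ^ n * Module.finrank ℚ F ∧ Same F F'

lemma cl_iff (D : ℤ) : Adm D ↔ Pool.Agent.V11291.RG.Cl D := adm_iff D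

lemma same_of {F F' : Type} [Field F] [NumberField F] [Field F'] [NumberField F']
    (h : ∃ G G' : ℂ → ℂ, Pool.Agent.V11291.RG.IsG F G ∧ Pool.Agent.V11291.RG.IsG F' G' ∧
      analyticOrderAt G' 1 = analyticOrderAt G 1 ∧ analyticOrderAt G 1 ≠ ⊤)
    (hr : Pool.Agent.Y682.XD.RR F' 1 = Pool.Agent.Y682.XD.RR F 1) : Same F F' := by
  obtain ⟨G, G', h1, h2, h3, h4⟩ := h
  obtain ⟨n, hn⟩ := ENat.ne_top_iff_exists.1 h4
  have hr' : rank F' E = rank F E := by rw [rank_eq, rank_eq, hr]
  have k1 : HasOrder F n := ⟨G, h1.1, fun s hs => by rw [factor_eq]; exact h1.2 s hs, hn.symm⟩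
  have k2 : HasOrder F' n := ⟨G', h2.1, fun s hs => by rw [factor_eq]; exact h2.2 s hs,
    by rw [h3, hn]⟩
  refine ⟨⟨n, k1, k2⟩, hr', ?_⟩
  constructor
  · rintro ⟨L, l1, l2, l3⟩
    have e := Pool.Agent.V11291.RG.isG_uniq (F := F) (G := L) (G' := G)
      ⟨l1, fun s hs => by have := l2 s hs; rwa [factor_eq] at this⟩ h1
    subst e
    have e2 : n = rank F E := by
      rw [← hn] at l3
      exact_mod_cast l3
    unfold Conjecture
    rw [hr', ← e2]
    exact k2
  · rintro ⟨L, l1, l2, l3⟩
    have e := Pool.Agent.V11291.RG.isG_uniq (F := F') (G := L) (G' := G')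
      ⟨l1, fun s hs => by have := l2 s hs; rwa [factor_eq] at this⟩ h2
    subst e
    have e2 : n = rank F' E := by
      rw [h3, ← hn] at l3
      exact_mod_cast l3
    unfold Conjecture
    rw [← hr', ← e2]
    exact k1

lemma inde_of {S : Finset ℤ} (h : IsBase S) : Pool.Agent.V11291.RG.Inde S := h.2

lemma cl_of {S : Finset ℤ} (h : IsBase S) : ∀ d ∈ S, Pool.Agent.V11291.RG.Cl d :=
  fun d hd => (cl_iff d).1 (h.1 d hd)

lemma crit_ex {S : Finset ℤ} (hS : ∀ d ∈ S, Adm d) {D : ℤ} (hD : Adm D) :
    Criterion S D ↔ Pool.Agent.V11291.JH.Ex S D := by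
  have key : ∀ T ⊆ S, ∀ D' k : ℤ, Pool.Agent.Y687.MQ.AdmD D' → D * ∏ d ∈ T, d = D' * k ^ 2 →
      Adm D' := by
    intro T hT D' k hD' h
    refine (adm_iff D').2 ⟨hD', fun p hp hpd => ?_⟩
    have h1 : (p : ℤ) ∣ D * ∏ d ∈ T, d := by
      rw [h]
      exact Dvd.dvd.mul_right hpd _
    rcases (Nat.prime_iff_prime_int.1 hp).dvd_or_dvd h1 with h2 | h2
    · exact ((adm_iff D).1 hD).2 p hp h2
    · obtain ⟨d, hd, hd'⟩ := (Nat.prime_iff_prime_int.1 hp).exists_mem_finset_dvd h2
      exact ((adm_iff d).1 (hS d (hT hd))).2 p hp hd'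
  constructor
  · intro h T hT D' k h1 h2
    have h3 := key T hT D' k h1 h2
    have h4 := (small_iff D' h3).1 (h T hT D' k h3 h2)
    rwa [mat_eq D' h3] at h4
  · intro h T hT D' k h1 h2
    rw [small_iff D' h1, mat_eq D' h1]
    exact h T hT D' k ((adm_iff D').1 h1).1 h2

lemma deg_tower {S : Finset ℤ} (hS : IsBase S) (K F : IntermediateField ℚ ℂ) [NumberField K]
    (hodd : Odd (Module.finrank ℚ K)) (hF : F = multiquadratic S ⊔ K) :
    Module.finrank ℚ F = 2 ^ S.card * Module.finrank ℚ K := by
  obtain ⟨d, hinj, himg⟩ := Pool.Agent.V11291.RG.enum S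
  have hfd : FiniteDimensional ℚ (Pool.Agent.Y682.XD.mq S) :=
    (Pool.Agent.V11291.RG.rr_sub S fun d hd => (cl_of hS d hd).1.1.ne_zero).1
  have hN : NumberField (Pool.Agent.Y682.XD.mq S) :=
    { to_charZero := inferInstance, to_finiteDimensional := hfd }
  have hdS : ∀ i, d i ∈ S := fun i => by
    have h := Finset.mem_image_of_mem d (Finset.mem_univ i)
    rwa [himg] at h
  exact Pool.Agent.V11291.JH.finrank_sup d (fun i => (cl_of hS _ (hdS i)).1.1.ne_zero)
    (Pool.Agent.V11291.RG.ind_of hinj himg hS.2) (Pool.Agent.Y682.XD.mq S) K F hodd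
    (Pool.Agent.V11291.RG.mq_eq himg) hF

lemma stable_of {S : Finset ℤ} (hS : IsBase S) {D : ℤ} (hD : Adm D) (hind : Independent S D)
    (hc : Criterion S D) : Stable S D := by
  intro m K F F' _ _ _ hK hodd hF hF'
  obtain ⟨hDS, hI⟩ := Pool.Agent.V11291.RG.inde_insert (inde_of hS) hind
  have hins : ∀ d ∈ insert D S, Pool.Agent.V11291.RG.Cl d := by
    intro d hd
    rcases Finset.mem_insert.1 hd with rfl | hd
    · exact (cl_iff _).1 hD
    · exact cl_of hS d hd
  obtain ⟨⟨G, G', h1, h2, h3, h4, h5, h6⟩, h7, h8, h9, h10, h11⟩ := Pool.Agent.V11291.RG.grow hins hDS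
    hI ((crit_ex hS.1 hD).1 hc) m K hK hodd F F' hF hF'
  refine ⟨?_, same_of ⟨G, G', ⟨h1, h3⟩, ⟨h2, h4⟩, h5, h6⟩ h7, ?_, h9⟩
  · rw [h11, h10, pow_succ]
    ring
  · have h12 := (Pool.Agent.Y682.XF.trans_D F hD.2.1).1
    exact h12.trans h8

/-- **Main theorem.**
(1) Let `S` be a finite subset of the class, independent modulo squares, and let `D` be an element of the
class independent of `S`.  Suppose that for the squarefree parts `D'` of the products of `D` and the
elements of a subset of `S`, and for all the layers `K`, the rank of `E_{D'}(K)` is zero and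
`Ш(E_{D'}/K)[2] = 0` (`Criterion S D`).  Then, for all `K`, `F = K(√d : d ∈ S)` and `F' = F(√D)`, of
degree two over `F`: the `L`-functions of `E` over `F` and over `F'` are entire and have the same order at
`s = 1`, the ranks of `E(F)` and `E(F')` are equal, the conjectures for `E` over `F` and over `F'` are
equivalent; the rank of `E_D(F)` is zero and `Ш(E_D/F)[2^∞]` is killed by `2^#S`.
(2) For every `S` the proportion of these `D` is exactly `c^(2^#S)`, among the positive `D` of the class,
ordered by absolute value, and also among the negative ones; `0.4194 < c < 0.4195`.  The number of the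
`D` of the class of a given sign with `|D| ≤ X` is at least a positive constant times
`X (log X)^(-3/4)`.
(3) For every `S` and every sequence of signs there are different numbers `d_0, d_1, …` with these signs
such that for all `n` and `K` the order and the rank over `K(√d : d ∈ S ∪ {d_0, …, d_{n-1}})`, a field
of degree `2^n` over `F`, are the same as over `F`. -/
theorem result :
    (∀ S : Finset ℤ, IsBase S → ∀ D : ℤ, Adm D → Independent S D → Criterion S D → Stable S D) ∧
    (∀ s : ℤ, (s = 1 ∨ s = -1) → Many s ∧ ∀ S : Finset ℤ, IsBase S →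
      Proportion (fun D => Independent S D ∧ Criterion S D) s (cc ^ (2 ^ S.card))) ∧
    (0.4194 < cc ∧ cc < 0.4195) ∧
    ∀ S : Finset ℤ, IsBase S → ∀ σ : ℕ → ℤ, (∀ i, σ i = 1 ∨ σ i = -1) →
      ∃ d : ℕ → ℤ, (∀ i, 0 < σ i * d i) ∧ Function.Injective d ∧ (∀ i, d i ∉ S) ∧ Tower S d := by
  refine ⟨fun S hS D hD hind hc => stable_of hS hD hind hc, fun s hs =>
    ⟨(Pool.Agent.Results.MP_787500_nt.LayersBlochKatoLaw.result.2.2.1 s hs).1, fun S hS => ?_⟩,
    Pool.Agent.Y948.CQ.t_C2.2.2.2, fun S hS σ hσ => ?_⟩
  · have h1 : Pool.Agent.V11291.RG.Cl 1 := ⟨Pool.Agent.Y682.YS.oneD.1, Pool.Agent.Y682.YS.oneD.2⟩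
    have h := Pool.Agent.V11291.RG.prop_ex' (B := {1}) hs
      (fun b hb => by rw [Finset.mem_singleton.1 hb]; exact h1) (cl_of hS) (inde_of hS)
      (fun b hb b' hb' hne => absurd ((Finset.mem_singleton.1 hb).trans
        (Finset.mem_singleton.1 hb').symm) hne)
    rw [Finset.card_singleton, one_mul] at h
    refine h.congr fun X => ?_
    have e1 : Pool.Agent.Y682.YQ.CA.count (fun D => Pool.Agent.Y687.MQ.AdmD D ∧ 0 < s * D ∧
        (Pool.Agent.Y682.YQ.H9 D ∧ (Pool.Agent.V11291.RG.Ind2 {1} S D ∧
          Pool.Agent.V11291.RG.ExB {1} S D))) X =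
        count (fun D => Adm D ∧ 0 < s * D ∧ (Independent S D ∧ Criterion S D)) X := by
      unfold Pool.Agent.Y682.YQ.CA.count count
      refine Nat.card_congr (Equiv.subtypeEquivRight fun D => ?_)
      have k1 : Pool.Agent.V11291.RG.Ind2 {1} S D ↔ Independent S D := by
        unfold Pool.Agent.V11291.RG.Ind2 Independent
        constructor
        · intro h T hT
          have := h 1 (Finset.mem_singleton_self 1) T hT
          rwa [one_mul] at this
        · intro h b hb T hT
          rw [Finset.mem_singleton.1 hb, one_mul]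
          exact h T hT
      have k2 : Pool.Agent.V11291.RG.ExB {1} S D ↔ Pool.Agent.V11291.JH.Ex S D := by
        unfold Pool.Agent.V11291.RG.ExB Pool.Agent.V11291.JH.Ex
        constructor
        · intro h T hT D' k h1 h2
          exact h 1 (Finset.mem_singleton_self 1) T hT D' k h1 (by rw [one_mul]; exact h2)
        · intro h b hb T hT D' k h1 h2
          rw [Finset.mem_singleton.1 hb, one_mul] at h2
          exact h T hT D' k h1 h2
      show (|D| ≤ (X : ℤ) ∧ (Pool.Agent.Y687.MQ.AdmD D ∧ 0 < s * D ∧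
        (Pool.Agent.Y682.YQ.H9 D ∧ (Pool.Agent.V11291.RG.Ind2 {1} S D ∧
          Pool.Agent.V11291.RG.ExB {1} S D)))) ↔
          (|D| ≤ (X : ℤ) ∧ (Adm D ∧ 0 < s * D ∧ (Independent S D ∧ Criterion S D)))
      rw [k1, k2]
      constructor
      · rintro ⟨g1, g2, g3, g4, g5, g6⟩
        have hD := (adm_iff D).2 ⟨g2, g4⟩
        exact ⟨g1, hD, g3, g5, (crit_ex hS.1 hD).2 g6⟩
      · rintro ⟨g1, g2, g3, g4, g5⟩
        exact ⟨g1, ((adm_iff D).1 g2).1, g3, ((adm_iff D).1 g2).2, g4, (crit_ex hS.1 g2).1 g5⟩
    have e2 : Pool.Agent.Y682.YQ.CA.count (fun D => Pool.Agent.Y687.MQ.AdmD D ∧ 0 < s * D ∧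
        Pool.Agent.Y682.YQ.H9 D) X = count (fun D => Adm D ∧ 0 < s * D) X := by
      unfold Pool.Agent.Y682.YQ.CA.count count
      refine Nat.card_congr (Equiv.subtypeEquivRight fun D => ?_)
      show (|D| ≤ (X : ℤ) ∧ (Pool.Agent.Y687.MQ.AdmD D ∧ 0 < s * D ∧ Pool.Agent.Y682.YQ.H9 D)) ↔
        (|D| ≤ (X : ℤ) ∧ (Adm D ∧ 0 < s * D))
      rw [adm_iff D]
      tauto
    rw [e1, e2]
  · obtain ⟨d, h1, h2, h3, h4⟩ := Pool.Agent.V11291.RG.chain (cl_of hS) (inde_of hS) σ hσ
    refine ⟨d, h1, h2, h3, ?_⟩
    intro n m K F F' _ _ _ hK hodd hF hF'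
    obtain ⟨h5, h6⟩ := Pool.Agent.V11291.RG.const h3 h2 h4 n m K hK hodd F F' hF hF'
    refine ⟨?_, same_of h5 h6⟩
    have hb : IsBase (S ∪ (Finset.range n).image d) :=
      ⟨fun x hx => (cl_iff x).2 ((h4 n).1 x hx), (h4 n).2.1⟩
    rw [deg_tower hb K F' hodd hF', deg_tower hS K F hodd hF, Finset.card_union_of_disjoint,
      Finset.card_image_of_injective _ h2, Finset.card_range, pow_add]
    · ring
    · rw [Finset.disjoint_left]
      intro x hx hx'
      obtain ⟨i, -, rfl⟩ := Finset.mem_image.1 hx'
      exact h3 i hx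

end Pool.Agent.Results.MP_9faec4_nt.StableExtensions
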